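import Mathlib

set_option autoImplicit false

namespace Pool.Agent.IPP

open Module Submodule

/-- An infinite family of pairwise transversal hyperplanes in a space of dimension at least two. -/
lemma exists_hyperplane_family {K V : Type*} [Field K] [AddCommGroup V] [Module K V]
    [FiniteDimensional K V] (S : Submodule K V) (h : 2 ≤ finrank K S) :
    ∃ H : K → Submodule K V, (∀ t, H t < S) ∧ (∀ t t', t ≠ t' → H t ⊔ H t' = S) := by
  classical
  set d := finrank K S with hd
  let b : Basis (Fin d) K S := finBasis K S
  let i0 : Fin d := ⟨0, by omega⟩
  let i1 : Fin d := ⟨1, by omega⟩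
  have h01 : i0 ≠ i1 := by
    intro hh
    have := congrArg Fin.val hh
    simp [i0, i1] at this
  let f : K → (S →ₗ[K] K) := fun t => b.coord i0 + t • b.coord i1
  have fb0 : ∀ t, f t (b i0) = 1 := by
    intro t
    simp [f, h01]
  have fb1 : ∀ t, f t (b i1) = t := by
    intro t
    simp [f, h01.symm]
  refine ⟨fun t => (LinearMap.ker (f t)).map S.subtype, ?_, ?_⟩
  · intro t
    refine lt_of_le_of_ne ?_ ?_
    · rintro x ⟨y, _, rfl⟩
      exact y.2
    · intro hh
      have hh' : (LinearMap.ker (f t)).map S.subtype = S := hh
      have hx : ((b i0 : S) : V) ∈ (LinearMap.ker (f t)).map S.subtype := by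
        rw [hh']; exact (b i0).2
      obtain ⟨y, hy, hyx⟩ := hx
      have : y = b i0 := Subtype.ext hyx
      rw [this] at hy
      have h1 : f t (b i0) = 0 := hy
      rw [fb0] at h1
      exact one_ne_zero h1
  · intro t t' htt
    apply le_antisymm
    · apply sup_le
      · rintro x ⟨y, _, rfl⟩
        exact y.2
      · rintro x ⟨y, _, rfl⟩
        exact y.2
    · intro s hs
      let s' : S := ⟨s, hs⟩
      let w : S := t • b i0 - b i1
      have hw : f t w = 0 := by
        simp only [w, map_sub, map_smul, fb0, fb1]
        simp
      have hw' : f t' w = t - t' := by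
        simp only [w, map_sub, map_smul, fb0, fb1]
        simp
      have hne : t - t' ≠ 0 := sub_ne_zero.mpr htt
      have key : s' = (f t' s' / (t - t')) • w + (s' - (f t' s' / (t - t')) • w) := by
        abel
      have hs' : s = (((f t' s' / (t - t')) • w : S) : V)
          + ((s' - (f t' s' / (t - t')) • w : S) : V) := by
        rw [← Submodule.coe_add, ← key]
      rw [hs']
      apply Submodule.add_mem_sup
      · refine ⟨(f t' s' / (t - t')) • w, ?_, rfl⟩
        change f t ((f t' s' / (t - t')) • w) = 0
        rw [map_smul, hw, smul_zero]
      · refine ⟨s' - (f t' s' / (t - t')) • w, ?_, rfl⟩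
        change f t' (s' - (f t' s' / (t - t')) • w) = 0
        rw [map_sub, map_smul, hw', smul_eq_mul, div_mul_cancel₀ _ hne, sub_self]

/-- Rado's theorem for subspaces, in the form that produces a circuit: if every proper subfamily
of a finite family of subspaces satisfies the rank condition, then one can choose one vector in
each subspace so that all proper subfamilies of vectors are linearly independent. -/
theorem rado_circuit {K V ι : Type*} [Field K] [Infinite K] [AddCommGroup V] [Module K V]
    [FiniteDimensional K V] [Fintype ι] [DecidableEq ι] (n : ℕ) :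
    ∀ (S : ι → Submodule K V), ∑ j, finrank K (S j) = n →
    (∀ J : Finset ι, J ≠ Finset.univ → J.card ≤ finrank K ↥(⨆ j ∈ J, S j)) →
    ∃ v : ι → V, (∀ j, v j ∈ S j) ∧
      ∀ j0, LinearIndependent K (fun j : {j : ι // j ≠ j0} => v j.1) := by
  classical
  induction n using Nat.strong_induction_on with
  | _ n ih =>
  intro S hn hS
  by_cases hall : ∀ j, finrank K (S j) ≤ 1
  · -- base case
    have h1 : ∀ j, ∃ v : S j, ∀ w : S j, ∃ c : K, c • v = w := by
      intro j
      exact finrank_le_one_iff.mp (hall j)
    choose v hv using h1
    have hspan : ∀ j, S j = Submodule.span K {((v j : S j) : V)} := by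
      intro j
      apply le_antisymm
      · intro x hx
        obtain ⟨c, hc⟩ := hv j ⟨x, hx⟩
        rw [Submodule.mem_span_singleton]
        refine ⟨c, ?_⟩
        have := congrArg Subtype.val hc
        simpa using this
      · rw [Submodule.span_singleton_le_iff_mem]
        exact (v j).2
    refine ⟨fun j => (v j : V), fun j => (v j).2, ?_⟩
    intro j0
    rw [linearIndependent_iff_card_le_finrank_span]
    have hJ := hS (Finset.univ.erase j0) (by
      intro h
      have := Finset.mem_univ j0
      rw [← h] at this
      simp at this)
    have hcard : Fintype.card {j // j ≠ j0} = (Finset.univ.erase j0).card := by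
      rw [Fintype.card_subtype]
      congr 1
      ext j
      simp
    rw [hcard]
    refine hJ.trans ?_
    apply Submodule.finrank_mono
    refine iSup₂_le ?_
    intro j hj
    rw [hspan j, Submodule.span_singleton_le_iff_mem]
    apply Submodule.subset_span
    exact ⟨⟨j, (Finset.mem_erase.mp hj).1⟩, rfl⟩
  · push Not at hall
    obtain ⟨j1, hj1⟩ := hall
    obtain ⟨H, Hlt, Hsup⟩ := exists_hyperplane_family (S j1) hj1
    by_cases hex : ∃ t, ∀ J : Finset ι, J ≠ Finset.univ →
        J.card ≤ finrank K ↥(⨆ j ∈ J, Function.update S j1 (H t) j)
    · obtain ⟨t, ht⟩ := hex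
      have hle : ∀ j, Function.update S j1 (H t) j ≤ S j := by
        intro j
        by_cases hj : j = j1
        · subst hj
          simp only [Function.update_self]
          exact (Hlt t).le
        · rw [Function.update_of_ne hj]
      have hsum : ∑ j, finrank K (Function.update S j1 (H t) j) < n := by
        rw [← hn]
        apply Finset.sum_lt_sum
        · intro j _
          exact Submodule.finrank_mono (hle j)
        · refine ⟨j1, Finset.mem_univ _, ?_⟩
          rw [Function.update_self]
          exact Submodule.finrank_lt_finrank_of_lt (Hlt t)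
      obtain ⟨v, hv, hv'⟩ := ih _ hsum (Function.update S j1 (H t)) rfl ht
      exact ⟨v, fun j => hle j (hv j), hv'⟩
    · exfalso
      push Not at hex
      choose J hJ1 hJ2 using hex
      have : Infinite K := inferInstance
      obtain ⟨t, t', htt, hJJ⟩ := Finite.exists_ne_map_eq_of_infinite J
      have e1 := hJ2 t
      have e2 := hJ2 t'
      have huniv := hJ1 t
      rw [← hJJ] at e2
      set J0 := J t with hJ0
      have hmem : j1 ∈ J0 := by
        by_contra hno
        have heq : (⨆ j ∈ J0, Function.update S j1 (H t) j) = ⨆ j ∈ J0, S j := by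
          refine iSup_congr fun j => iSup_congr fun hj => ?_
          have : j ≠ j1 := fun h => hno (h ▸ hj)
          rw [Function.update_of_ne this]
        rw [heq] at e1
        exact absurd (hS J0 huniv) (not_le.mpr e1)
      set B : Submodule K V := ⨆ j ∈ J0.erase j1, S j with hB
      have hdecomp : ∀ (T : Submodule K V),
          (⨆ j ∈ J0, Function.update S j1 T j) = T ⊔ B := by
        intro T
        conv_lhs => rw [← Finset.insert_erase hmem]
        rw [Finset.iSup_insert, Function.update_self]
        congr 1
        refine iSup_congr fun j => iSup_congr fun hj => ?_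
        rw [Function.update_of_ne (Finset.mem_erase.mp hj).1]
      rw [hdecomp] at e1 e2
      have hfull : S j1 ⊔ B = ⨆ j ∈ J0, S j := by
        rw [← hdecomp (S j1)]
        simp
      have hsupinf := Submodule.finrank_sup_add_finrank_inf_eq (H t ⊔ B) (H t' ⊔ B)
      have hs1 : (H t ⊔ B) ⊔ (H t' ⊔ B) = S j1 ⊔ B := by
        rw [sup_sup_sup_comm, Hsup t t' htt, sup_idem]
      rw [hs1, hfull] at hsupinf
      have g1 := hS J0 huniv
      have g2 : (J0.erase j1).card ≤ finrank K ↥((H t ⊔ B) ⊓ (H t' ⊔ B)) := by
        have hne : J0.erase j1 ≠ Finset.univ := by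
          intro h
          have := Finset.mem_univ j1
          rw [← h] at this
          simp at this
        refine (hS _ hne).trans ?_
        apply Submodule.finrank_mono
        exact le_inf le_sup_right le_sup_right
      rw [Finset.card_erase_of_mem hmem] at g2
      have hpos : 0 < J0.card := Finset.card_pos.mpr ⟨j1, hmem⟩
      omega

end Pool.Agent.IPP
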