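import Mathlib
import Pool.Agent.IPP.Rado

set_option autoImplicit false
set_option linter.unusedSectionVars false

namespace Pool.Agent.IPP

open Module

/-- The linear map sending `p` to the function with value `p` at `a`, `-p` at `b`, `0` elsewhere. -/
def diffMap {V : Type} [DecidableEq V] (A : Type) [AddCommGroup A] [Module ℚ A] (a b : V) :
    A →ₗ[ℚ] (V → A) :=
  LinearMap.single ℚ (fun _ => A) a - LinearMap.single ℚ (fun _ => A) b

lemma diffMap_apply {V : Type} [DecidableEq V] (A : Type) [AddCommGroup A] [Module ℚ A]
    (a b : V) (p : A) (z : V) :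
    diffMap A a b p z = (if a = z then p else 0) - (if b = z then p else 0) := by
  simp only [diffMap, LinearMap.sub_apply, LinearMap.coe_single, Pi.sub_apply, Pi.single_apply]
  congr 1
  · by_cases h : z = a
    · simp [h]
    · rw [if_neg h, if_neg (fun h' => h h'.symm)]
  · by_cases h : z = b
    · simp [h]
    · rw [if_neg h, if_neg (fun h' => h h'.symm)]

section graph

variable {V E : Type} [Fintype V] [DecidableEq V] [Fintype E] [DecidableEq E]

/-- edges with both ends in `W` -/
def inner (x y : E → V) (W : Finset V) : Finset E :=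
  Finset.univ.filter (fun j => x j ∈ W ∧ y j ∈ W)

lemma mem_inner (x y : E → V) (W : Finset V) (j : E) :
    j ∈ inner x y W ↔ x j ∈ W ∧ y j ∈ W := by
  simp [inner]

/-- relation given by a set of edges -/
def erel (x y : E → V) (J : Finset E) : V → V → Prop := fun z w => ∃ j ∈ J, x j = z ∧ y j = w

/-- class representative map -/
noncomputable def crep (x y : E → V) (J : Finset E) (z : V) : V :=
  (Quot.mk (erel x y J) z).out

lemma crep_edge (x y : E → V) (J : Finset E) {j : E} (hj : j ∈ J) :
    crep x y J (x j) = crep x y J (y j) := by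
  unfold crep
  have : Quot.mk (erel x y J) (x j) = Quot.mk (erel x y J) (y j) :=
    Quot.sound ⟨j, hj, rfl, rfl⟩
  rw [this]

lemma crep_rel (x y : E → V) (J : Finset E) (z : V) :
    Relation.EqvGen (erel x y J) z (crep x y J z) := by
  apply Quot.eqvGen_exact
  unfold crep
  rw [Quot.out_eq]

lemma crep_idem (x y : E → V) (J : Finset E) (z : V) :
    crep x y J (crep x y J z) = crep x y J z := by
  have h : Quot.mk (erel x y J) (crep x y J z) = Quot.mk (erel x y J) z := by
    unfold crep
    rw [Quot.out_eq]
  change (Quot.mk (erel x y J) (crep x y J z)).out = crep x y J z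
  rw [h]
  rfl

lemma eqv_mem (x y : E → V) (J : Finset E) (W : Finset V) (hJ : J ⊆ inner x y W) {z w : V}
    (h : Relation.EqvGen (erel x y J) z w) : z ∈ W ↔ w ∈ W := by
  induction h with
  | rel a b hab =>
    obtain ⟨j, hj, rfl, rfl⟩ := hab
    have := (mem_inner x y W j).mp (hJ hj)
    exact ⟨fun _ => this.2, fun _ => this.1⟩
  | refl a => exact Iff.rfl
  | symm a b _ ih => exact ih.symm
  | trans a b c _ _ ih1 ih2 => exact ih1.trans ih2

lemma diffMap_mem_of_eqv (A : Type) [AddCommGroup A] [Module ℚ A] (x y : E → V) (J : Finset E)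
    {z w : V} (h : Relation.EqvGen (erel x y J) z w) (p : A) :
    diffMap A z w p ∈ ⨆ j ∈ J, LinearMap.range (diffMap A (x j) (y j)) := by
  induction h with
  | rel a b hab =>
    obtain ⟨j, hj, rfl, rfl⟩ := hab
    have : LinearMap.range (diffMap A (x j) (y j)) ≤
        ⨆ j ∈ J, LinearMap.range (diffMap A (x j) (y j)) := le_iSup₂_of_le j hj le_rfl
    exact this ⟨p, rfl⟩
  | refl a =>
    have : diffMap A a a p = 0 := by simp [diffMap]
    rw [this]
    exact Submodule.zero_mem _
  | symm a b _ ih =>
    have : diffMap A b a p = - diffMap A a b p := by simp [diffMap]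
    rw [this]
    exact Submodule.neg_mem _ ih
  | trans a b c _ _ ih1 ih2 =>
    have : diffMap A a c p = diffMap A a b p + diffMap A b c p := by simp [diffMap]
    rw [this]
    exact Submodule.add_mem _ ih1 ih2

lemma finrank_lower (s : ℕ) (x y : E → V) (J : Finset E) (W : Finset V) :
    s * (W.card - (W.image (crep x y J)).card) ≤
      finrank ℚ ↥(⨆ j ∈ J, LinearMap.range (diffMap (Fin s → ℚ) (x j) (y j))) := by
  classical
  set U := ⨆ j ∈ J, LinearMap.range (diffMap (Fin s → ℚ) (x j) (y j)) with hU
  set ρ := crep x y J with hρ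
  let NR : Finset V := W.filter (fun z => ρ z ≠ z)
  have hcard : W.card - (W.image ρ).card ≤ NR.card := by
    have h1 : (W.filter (fun z => ρ z = z)).card + NR.card = W.card := by
      rw [← Finset.card_filter_add_card_filter_not (s := W) (fun z => ρ z = z)]
    have h2 : (W.filter (fun z => ρ z = z)).card ≤ (W.image ρ).card := by
      apply Finset.card_le_card
      intro z hz
      rw [Finset.mem_filter] at hz
      rw [Finset.mem_image]
      exact ⟨z, hz.1, hz.2⟩
    omega
  -- surjection onto functions on NR
  let π : (V → Fin s → ℚ) →ₗ[ℚ] ({z // z ∈ NR} → Fin s → ℚ) :=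
    LinearMap.funLeft ℚ (Fin s → ℚ) (fun z : {z // z ∈ NR} => z.1)
  have hsurj : Function.Surjective (π.domRestrict U) := by
    intro g
    let u : V → Fin s → ℚ := ∑ z : {z // z ∈ NR}, diffMap (Fin s → ℚ) z.1 (ρ z.1) (g z)
    have hu : u ∈ U := by
      apply Submodule.sum_mem
      intro z _
      exact diffMap_mem_of_eqv (Fin s → ℚ) x y J (crep_rel x y J z.1) (g z)
    refine ⟨⟨u, hu⟩, ?_⟩
    funext z'
    change u z'.1 = g z'
    simp only [u, Finset.sum_apply, diffMap_apply]
    rw [Finset.sum_eq_single z']
    · have : ρ z'.1 ≠ z'.1 := (Finset.mem_filter.mp z'.2).2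
      simp [this]
    · intro z _ hz
      have h1 : z.1 ≠ z'.1 := fun h => hz (Subtype.ext h)
      have h2 : ρ z.1 ≠ z'.1 := by
        intro h
        have := (Finset.mem_filter.mp z'.2).2
        apply this
        rw [← h]
        exact crep_idem x y J z.1
      simp [h1, h2]
    · intro h
      exact absurd (Finset.mem_univ _) h
  have h3 := LinearMap.finrank_le_finrank_of_surjective hsurj
  have h4 : finrank ℚ ({z // z ∈ NR} → Fin s → ℚ) = NR.card * s := by
    rw [Module.finrank_pi_fintype]
    simp
  rw [h4] at h3
  calc s * (W.card - (W.image ρ).card) ≤ s * NR.card := Nat.mul_le_mul_left _ hcard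
    _ = NR.card * s := Nat.mul_comm _ _
    _ ≤ _ := h3

/-- Partition inequality. -/
lemma partition_ineq (s : ℕ) (x y : E → V) (hxy : ∀ j, x j ≠ y j) (W : Finset V) (F J : Finset E)
    (hF : F ⊆ inner x y W) (hFc : F.card = s * (W.card - 1) + 1) (hW : 2 ≤ W.card)
    (hmin : ∀ W' : Finset V, W' ⊂ W → 2 ≤ W'.card → (inner x y W').card ≤ s * (W'.card - 1))
    (hJF : J ⊆ F) (b : V → V) (hb : ∀ j ∈ J, b (x j) = b (y j))
    (hor : J ≠ F ∨ 2 ≤ (W.image b).card) :
    J.card + s * (W.image b).card ≤ s * W.card := by
  classical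
  by_cases h2 : 2 ≤ (W.image b).card
  · -- classes
    have hmaps : Set.MapsTo (fun j => b (x j)) (J : Set E) (W.image b : Set V) := by
      intro j hj
      have hj' := (mem_inner x y W j).mp (hF (hJF hj))
      exact Finset.mem_coe.mpr (Finset.mem_image_of_mem b hj'.1)
    have c1 : J.card = ∑ β ∈ W.image b, (J.filter (fun j => b (x j) = β)).card :=
      Finset.card_eq_sum_card_fiberwise hmaps
    have c2 : W.card = ∑ β ∈ W.image b, (W.filter (fun z => b z = β)).card :=
      Finset.card_eq_sum_card_image b W
    have c3 : ∀ β ∈ W.image b, (J.filter (fun j => b (x j) = β)).card + s ≤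
        s * (W.filter (fun z => b z = β)).card := by
      intro β hβ
      set Wβ := W.filter (fun z => b z = β) with hWβ
      have hsub : J.filter (fun j => b (x j) = β) ⊆ inner x y Wβ := by
        intro j hj
        rw [Finset.mem_filter] at hj
        have hj' := (mem_inner x y W j).mp (hF (hJF hj.1))
        rw [mem_inner, hWβ, Finset.mem_filter, Finset.mem_filter]
        refine ⟨⟨hj'.1, hj.2⟩, hj'.2, ?_⟩
        rw [← hb j hj.1]; exact hj.2
      have hpos : 1 ≤ Wβ.card := by
        obtain ⟨z, hz, hzβ⟩ := Finset.mem_image.mp hβ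
        exact Finset.card_pos.mpr ⟨z, Finset.mem_filter.mpr ⟨hz, hzβ⟩⟩
      have hss : Wβ ⊂ W := by
        rw [Finset.ssubset_iff_subset_ne]
        refine ⟨Finset.filter_subset _ _, ?_⟩
        intro heq
        have : W.image b ⊆ {β} := by
          intro γ hγ
          obtain ⟨z, hz, rfl⟩ := Finset.mem_image.mp hγ
          rw [← heq] at hz
          rw [Finset.mem_singleton]
          exact (Finset.mem_filter.mp hz).2
        have := Finset.card_le_card this
        rw [Finset.card_singleton] at this
        omega
      have hle := Finset.card_le_card hsub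
      rcases Nat.lt_or_ge Wβ.card 2 with hlt | hge
      · have h1 : Wβ.card = 1 := by omega
        obtain ⟨z, hz⟩ := Finset.card_eq_one.mp h1
        have hempty : inner x y Wβ = ∅ := by
          rw [Finset.eq_empty_iff_forall_notMem]
          intro j hj
          rw [mem_inner, hz, Finset.mem_singleton, Finset.mem_singleton] at hj
          exact hxy j (hj.1.trans hj.2.symm)
        rw [hempty, Finset.card_empty] at hle
        rw [h1]
        omega
      · have := hmin Wβ hss hge
        have h5 : s * (Wβ.card - 1) + s = s * Wβ.card := by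
          obtain ⟨k, hk⟩ : ∃ k, Wβ.card = k + 1 := ⟨Wβ.card - 1, by omega⟩
          rw [hk]
          simp
          ring
        omega
    have c4 := Finset.sum_le_sum c3
    rw [Finset.sum_add_distrib, ← c1, ← Finset.mul_sum, ← c2, Finset.sum_const, smul_eq_mul] at c4
    rw [Nat.mul_comm s (W.image b).card]
    exact c4
  · have hne : J ≠ F := by
      rcases hor with h | h
      · exact h
      · exact absurd h h2
    have hlt : J.card < F.card := Finset.card_lt_card (Finset.ssubset_iff_subset_ne.mpr ⟨hJF, hne⟩)
    have h1 : (W.image b).card ≤ 1 := by omega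
    have h3 : s * (W.image b).card ≤ s := by
      calc s * (W.image b).card ≤ s * 1 := Nat.mul_le_mul_left _ h1
        _ = s := Nat.mul_one _
    obtain ⟨k, hk⟩ : ∃ k, W.card = k + 1 := ⟨W.card - 1, by omega⟩
    have h4 : s * W.card = s * (W.card - 1) + s := by
      rw [hk]
      simp
      ring
    omega

end graph

end Pool.Agent.IPP
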