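import Mathlib
import Pool.Agent.IPP.Graph

set_option autoImplicit false
set_option linter.unusedSectionVars false

namespace Pool.Agent.IPP

open Module

section cert

variable {V E : Type} [Fintype V] [DecidableEq V] [Fintype E] [DecidableEq E]

/-- incidence number of the edge `j` and the vertex `z` -/
def inc (R : Type) [Ring R] (x y : E → V) (j : E) (z : V) : R :=
  (if x j = z then 1 else 0) - (if y j = z then 1 else 0)

lemma restrict_inj {A : Type} [AddCommGroup A] (W : Finset V) (x0 : V)
    (f : V → A) (h1 : ∀ z, z ∉ W → f z = 0) (h2 : ∑ z, f z = 0)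
    (h3 : ∀ z ∈ W, z ≠ x0 → f z = 0) : f = 0 := by
  funext z
  by_cases hz : z = x0
  · subst hz
    rw [Finset.sum_eq_single z] at h2
    · exact h2
    · intro w _ hw
      by_cases hwW : w ∈ W
      · exact h3 w hwW hw
      · exact h1 w hwW
    · intro h; exact absurd (Finset.mem_univ _) h
  · by_cases hzW : z ∈ W
    · exact h3 z hzW hz
    · exact h1 z hzW

lemma diffMap_supp (A : Type) [AddCommGroup A] [Module ℚ A] (W : Finset V) {a b : V}
    (ha : a ∈ W) (hb : b ∈ W) (p : A) (z : V) (hz : z ∉ W) : diffMap A a b p z = 0 := by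
  rw [diffMap_apply]
  have h1 : a ≠ z := fun h => hz (h ▸ ha)
  have h2 : b ≠ z := fun h => hz (h ▸ hb)
  simp [h1, h2]

lemma diffMap_sum (A : Type) [AddCommGroup A] [Module ℚ A] (a b : V) (p : A) :
    ∑ z, diffMap A a b p z = 0 := by
  simp only [diffMap_apply]
  rw [Finset.sum_sub_distrib]
  simp

theorem cert_rat (s : ℕ) (x y : E → V) (hxy : ∀ j, x j ≠ y j)
    (hV : 2 ≤ Fintype.card V) (hE : s * (Fintype.card V - 1) + 1 ≤ Fintype.card E) :
    ∃ (W : Finset V) (x0 : V) (P : E → Fin s → ℚ) (t : E → ℚ),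
      x0 ∈ W ∧ (∃ z ∈ W, z ≠ x0) ∧
      (∀ z ∈ W, ∀ i, ∑ j ∈ inner x y W, P j i * inc ℚ x y j z = 0) ∧
      (∀ b : V → Fin s → ℚ,
        (∀ j ∈ inner x y W, ∑ i, P j i * (b (x j) i - b (y j) i) = 0) →
          ∀ z ∈ W, b z = b x0) ∧
      (∀ z ∈ W, z ≠ x0 → ∑ j ∈ inner x y W, t j * inc ℚ x y j z = 1) := by
  classical
  -- minimal W
  let 𝒲 : Finset (Finset V) := Finset.univ.filter
    (fun W => 2 ≤ W.card ∧ s * (W.card - 1) + 1 ≤ (inner x y W).card)
  have h𝒲 : 𝒲.Nonempty := by
    refine ⟨Finset.univ, ?_⟩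
    rw [Finset.mem_filter]
    refine ⟨Finset.mem_univ _, by simpa using hV, ?_⟩
    have : inner x y Finset.univ = Finset.univ := by
      ext j; simp [mem_inner]
    rw [this]
    simpa using hE
  obtain ⟨W, hW𝒲, hWmin⟩ := Finset.exists_min_image 𝒲 Finset.card h𝒲
  rw [Finset.mem_filter] at hW𝒲
  obtain ⟨-, hW2, hWE⟩ := hW𝒲
  have hmin : ∀ W' : Finset V, W' ⊂ W → 2 ≤ W'.card →
      (inner x y W').card ≤ s * (W'.card - 1) := by
    intro W' hss h2
    by_contra hcon
    have hmem : W' ∈ 𝒲 := by
      rw [Finset.mem_filter]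
      exact ⟨Finset.mem_univ _, h2, by omega⟩
    have h1 := hWmin W' hmem
    have h3 := Finset.card_lt_card hss
    omega
  obtain ⟨F, hF, hFc⟩ := Finset.exists_subset_card_eq hWE
  obtain ⟨x0, hx0⟩ : ∃ x0, x0 ∈ W := by
    have : W.Nonempty := Finset.card_pos.mp (by omega)
    exact this
  have hz0 : ∃ z ∈ W, z ≠ x0 := Finset.exists_mem_ne (by omega) x0
  have hFne : F.Nonempty := Finset.card_pos.mp (by omega)
  let A : Type := Fin s → ℚ
  have hFW : ∀ j ∈ F, x j ∈ W ∧ y j ∈ W := fun j hj => (mem_inner x y W j).mp (hF hj)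
  -- Rado
  let ι : Type := {j // j ∈ F}
  let S : ι → Submodule ℚ (V → Fin s → ℚ) :=
    fun j => LinearMap.range (diffMap (Fin s → ℚ) (x j.1) (y j.1))
  have hcond : ∀ J : Finset ι, J ≠ Finset.univ → J.card ≤ finrank ℚ ↥(⨆ j ∈ J, S j) := by
    intro J hJ
    let J' : Finset E := J.map (Function.Embedding.subtype _)
    have hJ'c : J'.card = J.card := Finset.card_map _
    have hJ'F : J' ⊆ F := by
      intro j hj
      rw [Finset.mem_map] at hj
      obtain ⟨k, _, rfl⟩ := hj
      exact k.2
    have hJ'ne : J' ≠ F := by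
      intro h
      apply hJ
      rw [Finset.eq_univ_iff_forall]
      intro k
      have hkJ : k.1 ∈ J' := by rw [h]; exact k.2
      rw [Finset.mem_map] at hkJ
      obtain ⟨k', hk', hkk⟩ := hkJ
      have hk'' : k' = k := Subtype.ext hkk
      rwa [hk''] at hk'
    have h1 := partition_ineq s x y hxy W F J' hF hFc hW2 hmin hJ'F (crep x y J')
      (fun j hj => crep_edge x y J' hj) (Or.inl hJ'ne)
    have h2 := finrank_lower s x y J' W
    have h3 : (⨆ j ∈ J', LinearMap.range (diffMap (Fin s → ℚ) (x j) (y j))) ≤ ⨆ j ∈ J, S j := by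
      refine iSup₂_le ?_
      intro j hj
      rw [Finset.mem_map] at hj
      obtain ⟨k, hk, rfl⟩ := hj
      exact le_iSup₂_of_le k hk le_rfl
    have h4 := Submodule.finrank_mono h3
    have h5 : J'.card ≤ s * (W.card - (W.image (crep x y J')).card) := by
      rw [Nat.mul_sub]
      omega
    omega
  obtain ⟨v, hvS, hvind⟩ := rado_circuit _ S rfl hcond
  choose p hp using hvS
  have hvsupp : ∀ (k : ι) (z : V), z ∉ W → v k z = 0 := by
    intro k z hz
    rw [← hp k]
    exact diffMap_supp _ W (hFW k.1 k.2).1 (hFW k.1 k.2).2 _ z hz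
  have hvsum : ∀ k : ι, ∑ z, v k z = 0 := by
    intro k
    rw [← hp k]
    exact diffMap_sum _ _ _ _
  let T : (V → Fin s → ℚ) →ₗ[ℚ] ({z // z ∈ W.erase x0} → Fin s → ℚ) :=
    LinearMap.funLeft ℚ (Fin s → ℚ) (fun z : {z // z ∈ W.erase x0} => z.1)
  have hTrank : finrank ℚ ({z // z ∈ W.erase x0} → Fin s → ℚ) = s * (W.card - 1) := by
    rw [Module.finrank_pi_fintype]
    simp only [finrank_fintype_fun_eq_card, Fintype.card_fin, Finset.sum_const,
      Finset.card_univ, Fintype.card_coe, Finset.card_erase_of_mem hx0, smul_eq_mul]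
    ring
  have hkey : ∀ (c : ι → ℚ) (f : V → Fin s → ℚ), (∀ z, z ∉ W → f z = 0) → ∑ z, f z = 0 →
      T f = ∑ k, c k • T (v k) → f = ∑ k, c k • v k := by
    intro c f hf1 hf2 hT
    rw [← sub_eq_zero]
    apply restrict_inj W x0
    · intro z hz
      simp only [Pi.sub_apply, Finset.sum_apply, Pi.smul_apply]
      rw [hf1 z hz, Finset.sum_eq_zero]
      · simp
      · intro k _
        rw [hvsupp k z hz, smul_zero]
    · simp only [Pi.sub_apply, Finset.sum_apply, Pi.smul_apply]
      rw [Finset.sum_sub_distrib, hf2, Finset.sum_comm, Finset.sum_eq_zero]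
      · simp
      · intro k _
        rw [← Finset.smul_sum, hvsum k, smul_zero]
    · intro z hz hzx
      have hz' : z ∈ W.erase x0 := Finset.mem_erase.mpr ⟨hzx, hz⟩
      have h1 := congrFun hT ⟨z, hz'⟩
      have h2 : T f ⟨z, hz'⟩ = f z := rfl
      have h3 : (∑ k, c k • T (v k)) ⟨z, hz'⟩ = (∑ k, c k • v k) z := by
        simp only [Finset.sum_apply, Pi.smul_apply]
        rfl
      rw [Pi.sub_apply, ← h2, h1, h3, sub_self]
  have hcardι : Fintype.card ι = s * (W.card - 1) + 1 := by
    rw [← hFc]
    exact Fintype.card_coe F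
  have hdep : ¬ LinearIndependent ℚ (fun k : ι => T (v k)) := by
    intro h
    have := h.fintype_card_le_finrank
    rw [hTrank, hcardι] at this
    omega
  rw [Fintype.not_linearIndependent_iff] at hdep
  obtain ⟨g, hg0, ⟨k1, hk1⟩⟩ := hdep
  have hg : ∑ k, g k • v k = 0 := by
    symm
    apply hkey g 0 (fun _ _ => rfl) (by simp)
    rw [map_zero, hg0]
  have hgne : ∀ k, g k ≠ 0 := by
    intro k0 hk0
    have hlin := hvind k0
    rw [Fintype.linearIndependent_iff] at hlin
    have hsum : ∑ k : {k : ι // k ≠ k0}, g k.1 • v k.1 = 0 := by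
      have h1 : ∑ k : {k : ι // k ≠ k0}, g k.1 • v k.1
          = ∑ k ∈ Finset.univ.filter (fun k => k ≠ k0), g k • v k := by
        symm
        exact Finset.sum_subtype (Finset.univ.filter (fun k => k ≠ k0)) (fun k => by simp)
          (fun k => g k • v k)
      rw [h1, Finset.sum_filter_of_ne]
      · exact hg
      · intro k _ hk hkk
        apply hk
        rw [hkk, hk0, zero_smul]
    have hall := hlin (fun k => g k.1) hsum
    by_cases hkk : k1 = k0
    · rw [hkk] at hk1
      exact hk1 hk0
    · exact hk1 (hall ⟨k1, hkk⟩)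
  -- the vectors
  let P : E → Fin s → ℚ := fun j => if h : j ∈ F then g ⟨j, h⟩ • p ⟨j, h⟩ else 0
  have hPF : ∀ k : ι, P k.1 = g k • p k := by
    intro k
    simp only [P]
    rw [dif_pos k.2]
  have hPn : ∀ j, j ∉ F → P j = 0 := by
    intro j hj
    simp only [P]
    rw [dif_neg hj]
  -- connectedness
  have hconn : ∀ z ∈ W, Relation.EqvGen (erel x y F) z x0 := by
    have himg : (W.image (crep x y F)).card ≤ 1 := by
      by_contra hcon
      push Not at hcon
      have h1 := partition_ineq s x y hxy W F F hF hFc hW2 hmin (Finset.Subset.refl _)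
        (crep x y F) (fun j hj => crep_edge x y F hj) (Or.inr (by omega))
      obtain ⟨k, hk⟩ : ∃ k, W.card = k + 1 := ⟨W.card - 1, by omega⟩
      have h4 : s * W.card = s * (W.card - 1) + s := by
        rw [hk]
        simp
        ring
      have h5 : s * 1 ≤ s * (W.image (crep x y F)).card := Nat.mul_le_mul_left _ (by omega)
      omega
    intro z hz
    have h1 : crep x y F z = crep x y F x0 := by
      rw [Finset.card_le_one] at himg
      exact himg _ (Finset.mem_image_of_mem _ hz) _ (Finset.mem_image_of_mem _ hx0)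
    have h2 := crep_rel x y F z
    rw [h1] at h2
    exact Relation.EqvGen.trans _ _ _ h2 (Relation.EqvGen.symm _ _ (crep_rel x y F x0))
  let c0 : V → ℚ := ∑ z ∈ W.erase x0, diffMap ℚ z x0 1
  have hc0 : c0 ∈ ⨆ j ∈ F, LinearMap.range (diffMap ℚ (x j) (y j)) := by
    apply Submodule.sum_mem
    intro z hz
    exact diffMap_mem_of_eqv ℚ x y F (hconn z (Finset.mem_erase.mp hz).2) 1
  rw [Submodule.mem_iSup_finset_iff_exists_sum] at hc0
  obtain ⟨μ, hμ⟩ := hc0
  have hμ' : ∀ j, ∃ τ : ℚ, diffMap ℚ (x j) (y j) τ = (μ j : V → ℚ) := fun j => (μ j).2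
  choose τ hτ using hμ'
  let t : E → ℚ := fun j => if j ∈ F then τ j else 0
  refine ⟨W, x0, P, t, hx0, hz0, ?_, ?_, ?_⟩
  · -- stress
    intro z _ i
    have h1 : ∑ j ∈ inner x y W, P j i * inc ℚ x y j z = ∑ j ∈ F, P j i * inc ℚ x y j z := by
      symm
      apply Finset.sum_subset hF
      intro j _ hj
      rw [hPn j hj]
      simp
    rw [h1, ← Finset.sum_coe_sort F]
    have h2 := congrFun (congrFun hg z) i
    rw [Finset.sum_apply, Finset.sum_apply] at h2
    rw [Pi.zero_apply, Pi.zero_apply] at h2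
    rw [← h2]
    apply Finset.sum_congr rfl
    intro k _
    rw [hPF k]
    rw [Pi.smul_apply, Pi.smul_apply, Pi.smul_apply, ← hp k, diffMap_apply]
    simp only [inc, smul_eq_mul, Pi.sub_apply]
    by_cases h3 : x k.1 = z <;> by_cases h4 : y k.1 = z <;> simp [h3, h4]
  · -- span
    intro b hb z hz
    let φ : (V → Fin s → ℚ) → ℚ := fun f => ∑ z, ∑ i, b z i * f z i
    have hφd : ∀ (a c : V) (q : Fin s → ℚ), φ (diffMap (Fin s → ℚ) a c q)
        = ∑ i, q i * (b a i - b c i) := by
      intro a c q
      simp only [φ, diffMap_apply]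
      rw [Finset.sum_comm]
      apply Finset.sum_congr rfl
      intro i _
      have : ∀ w : V, b w i * ((if a = w then q else 0) - (if c = w then q else 0) : Fin s → ℚ) i
          = (if a = w then b w i * q i else 0) - (if c = w then b w i * q i else 0) := by
        intro w
        rw [Pi.sub_apply, mul_sub]
        by_cases h3 : a = w <;> by_cases h4 : c = w <;> simp [h3, h4]
      simp only [this]
      rw [Finset.sum_sub_distrib]
      simp
      ring
    have hφv : ∀ k : ι, φ (v k) = 0 := by
      intro k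
      rw [← hp k, hφd]
      have h1 := hb k.1 (hF k.2)
      rw [hPF k] at h1
      have h2 : g k * ∑ i, p k i * (b (x k.1) i - b (y k.1) i) = 0 := by
        rw [← h1, Finset.mul_sum]
        apply Finset.sum_congr rfl
        intro i _
        rw [Pi.smul_apply, smul_eq_mul]
        ring
      rcases mul_eq_zero.mp h2 with h | h
      · exact absurd h (hgne k)
      · exact h
    have hφadd : ∀ f f' : V → Fin s → ℚ, φ (f + f') = φ f + φ f' := by
      intro f f'
      simp only [φ, Pi.add_apply, mul_add, Finset.sum_add_distrib]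
    have hφsmul : ∀ (c : ℚ) (f : V → Fin s → ℚ), φ (c • f) = c * φ f := by
      intro c f
      simp only [φ, Pi.smul_apply, smul_eq_mul, Finset.mul_sum]
      apply Finset.sum_congr rfl
      intro w _
      apply Finset.sum_congr rfl
      intro i _
      ring
    have hφ0 : φ 0 = 0 := by simp [φ]
    have hφsum : ∀ (c : ι → ℚ), φ (∑ k, c k • v k) = 0 := by
      intro c
      have : ∀ (K : Finset ι), φ (∑ k ∈ K, c k • v k) = 0 := by
        intro K
        induction K using Finset.induction_on with
        | empty => simpa using hφ0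
        | insert a K ha ih =>
          rw [Finset.sum_insert ha, hφadd, hφsmul, hφv, ih]
          simp
      exact this _
    -- basis
    obtain ⟨j0, hj0⟩ := hFne
    let k0 : ι := ⟨j0, hj0⟩
    have hTind : LinearIndependent ℚ (fun k : {k : ι // k ≠ k0} => T (v k.1)) := by
      rw [Fintype.linearIndependent_iff]
      intro c hc
      have hlin := hvind k0
      rw [Fintype.linearIndependent_iff] at hlin
      apply hlin c
      let c' : ι → ℚ := fun k => if h : k ≠ k0 then c ⟨k, h⟩ else 0
      have hconv : ∀ {B : Type} [AddCommGroup B] [Module ℚ B] (w : ι → B),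
          ∑ k, c' k • w k = ∑ k : {k : ι // k ≠ k0}, c k • w k.1 := by
        intro B _ _ w
        have h1 : ∑ k : {k : ι // k ≠ k0}, c k • w k.1
            = ∑ k : {k : ι // k ≠ k0}, c' k.1 • w k.1 := by
          apply Finset.sum_congr rfl
          intro k _
          simp only [c']
          rw [dif_pos k.2]
        have h2 : ∑ k : {k : ι // k ≠ k0}, c' k.1 • w k.1
            = ∑ k ∈ Finset.univ.filter (fun k => k ≠ k0), c' k • w k := by
          symm
          exact Finset.sum_subtype (Finset.univ.filter (fun k => k ≠ k0)) (fun k => by simp)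
            (fun k => c' k • w k)
        rw [h1, h2, Finset.sum_filter_of_ne]
        intro k _ hk hkk
        apply hk
        simp only [c']
        rw [dif_neg (by simpa using hkk), zero_smul]
      rw [← hconv v]
      symm
      apply hkey c' 0 (fun _ _ => rfl) (by simp)
      rw [map_zero, hconv (fun k => T (v k)), hc]
    have hTspan : Submodule.span ℚ (Set.range (fun k : {k : ι // k ≠ k0} => T (v k.1))) = ⊤ := by
      apply hTind.span_eq_top_of_card_eq_finrank'
      rw [hTrank, Fintype.card_subtype_compl, hcardι]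
      simp
    let f : V → Fin s → ℚ := diffMap (Fin s → ℚ) z x0 (b z - b x0)
    have hTf : T f ∈ Submodule.span ℚ (Set.range (fun k : ι => T (v k))) := by
      have h1 : T f ∈ Submodule.span ℚ (Set.range (fun k : {k : ι // k ≠ k0} => T (v k.1))) := by
        rw [hTspan]; exact Submodule.mem_top
      refine Submodule.span_mono ?_ h1
      rintro _ ⟨k, rfl⟩
      exact ⟨k.1, rfl⟩
    rw [Submodule.mem_span_range_iff_exists_fun] at hTf
    obtain ⟨c, hc⟩ := hTf
    have hf : f = ∑ k, c k • v k := by
      apply hkey c f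
      · intro w hw
        exact diffMap_supp _ W hz hx0 _ w hw
      · exact diffMap_sum _ _ _ _
      · exact hc.symm
    have hφf : φ f = 0 := by rw [hf]; exact hφsum c
    have hφf' : ∑ i, (b z i - b x0 i) * (b z i - b x0 i) = 0 := by
      rw [← hφf]
      exact (hφd z x0 (b z - b x0)).symm
    funext i
    have h0 := (Finset.sum_eq_zero_iff_of_nonneg
      (fun i _ => mul_self_nonneg (b z i - b x0 i))).mp hφf' i (Finset.mem_univ _)
    have := mul_self_eq_zero.mp h0
    linarith
  · -- positivity
    intro z hz hzx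
    have h1 : ∑ j ∈ inner x y W, t j * inc ℚ x y j z = ∑ j ∈ F, t j * inc ℚ x y j z := by
      symm
      apply Finset.sum_subset hF
      intro j _ hj
      simp only [t]
      rw [if_neg hj, zero_mul]
    rw [h1]
    have h2 := congrFun hμ z
    rw [Finset.sum_apply] at h2
    have h3 : ∑ j ∈ F, t j * inc ℚ x y j z = ∑ j ∈ F, ((μ j : V → ℚ)) z := by
      apply Finset.sum_congr rfl
      intro j hj
      rw [← hτ j, diffMap_apply]
      simp only [t, inc]
      rw [if_pos hj, mul_sub]
      by_cases h3 : x j = z <;> by_cases h4 : y j = z <;> simp [h3, h4]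
    rw [h3, h2]
    simp only [c0, Finset.sum_apply, diffMap_apply]
    rw [Finset.sum_sub_distrib]
    have h5 : ∀ w ∈ W.erase x0, (if x0 = z then (1 : ℚ) else 0) = 0 := by
      intro w _
      rw [if_neg (Ne.symm hzx)]
    rw [Finset.sum_congr rfl h5]
    simp [hz, hzx]

end cert

end Pool.Agent.IPP
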