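import Mathlib
import Pool.Agent.IPP.Cert

set_option autoImplicit false
set_option linter.unusedSectionVars false

namespace Pool.Agent.IPP

open Module Polynomial

section kernel

variable {V E : Type} [Fintype V] [DecidableEq V] [Fintype E] [DecidableEq E]

lemma inc_cast (x y : E → V) (j : E) (z : V) : ((inc ℤ x y j z : ℤ) : ℚ) = inc ℚ x y j z := by
  unfold inc
  push_cast
  rfl

/-- Integer certificate. -/
theorem cert_int (s : ℕ) (x y : E → V) (hxy : ∀ j, x j ≠ y j)
    (hV : 2 ≤ Fintype.card V) (hE : s * (Fintype.card V - 1) + 1 ≤ Fintype.card E) :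
    ∃ (W : Finset V) (x0 : V) (P : E → Fin s → ℤ) (t : E → ℤ),
      x0 ∈ W ∧ (∃ z ∈ W, z ≠ x0) ∧
      (∀ z ∈ W, ∀ i, ∑ j ∈ inner x y W, P j i * inc ℤ x y j z = 0) ∧
      (∀ b : V → Fin s → ℤ,
        (∀ j ∈ inner x y W, ∑ i, P j i * (b (x j) i - b (y j) i) = 0) →
          ∀ z ∈ W, b z = b x0) ∧
      (∀ z ∈ W, z ≠ x0 → 0 < ∑ j ∈ inner x y W, t j * inc ℤ x y j z) := by
  classical
  obtain ⟨W, x0, P, t, h1, h2, h3, h4, h5⟩ := cert_rat s x y hxy hV hE
  obtain ⟨⟨b, hb⟩, hbS⟩ := IsLocalization.exist_integer_multiples_of_finset (nonZeroDivisors ℤ)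
    ((Finset.univ.image (fun ji : E × Fin s => P ji.1 ji.2)) ∪ Finset.univ.image t : Finset ℚ)
  have hb0 : b ≠ 0 := nonZeroDivisors.ne_zero hb
  have hP : ∀ j i, ∃ m : ℤ, (m : ℚ) = (b : ℚ) * P j i := by
    intro j i
    obtain ⟨m, hm⟩ := hbS (P j i) (Finset.mem_union_left _
      (Finset.mem_image.mpr ⟨(j, i), Finset.mem_univ _, rfl⟩))
    refine ⟨m, ?_⟩
    simpa using hm
  have ht : ∀ j, ∃ m : ℤ, (m : ℚ) = (b : ℚ) * t j := by
    intro j
    obtain ⟨m, hm⟩ := hbS (t j) (Finset.mem_union_right _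
      (Finset.mem_image.mpr ⟨j, Finset.mem_univ _, rfl⟩))
    refine ⟨m, ?_⟩
    simpa using hm
  choose P' hP' using hP
  choose t' ht' using ht
  refine ⟨W, x0, P', fun j => b * t' j, h1, h2, ?_, ?_, ?_⟩
  · intro z hz i
    have : ((∑ j ∈ inner x y W, P' j i * inc ℤ x y j z : ℤ) : ℚ) = 0 := by
      push_cast
      have h6 : ∀ j ∈ inner x y W, (P' j i : ℚ) * ((inc ℤ x y j z : ℤ) : ℚ)
          = (b : ℚ) * (P j i * inc ℚ x y j z) := by
        intro j _
        rw [hP', inc_cast]
        ring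
      rw [Finset.sum_congr rfl h6, ← Finset.mul_sum, h3 z hz i, mul_zero]
    exact_mod_cast this
  · intro b' hb' z hz
    have h6 := h4 (fun w i => (b' w i : ℚ)) (by
      intro j hj
      have h7 := hb' j hj
      have h8 : ((∑ i, P' j i * (b' (x j) i - b' (y j) i) : ℤ) : ℚ) = 0 := by
        rw [h7]; simp
      push_cast at h8
      have h9 : (b : ℚ) * ∑ i, P j i * ((b' (x j) i : ℚ) - (b' (y j) i : ℚ)) = 0 := by
        rw [← h8, Finset.mul_sum]
        apply Finset.sum_congr rfl
        intro i _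
        rw [hP']
        ring
      rcases mul_eq_zero.mp h9 with h | h
      · exact absurd (by exact_mod_cast h) hb0
      · exact h) z hz
    funext i
    have h7 := congrFun h6 i
    exact_mod_cast h7
  · intro z hz hzx
    have h6 : ((∑ j ∈ inner x y W, (b * t' j) * inc ℤ x y j z : ℤ) : ℚ) = (b : ℚ)^2 := by
      push_cast
      have h7 : ∀ j ∈ inner x y W, ((b : ℚ) * (t' j : ℚ)) * ((inc ℤ x y j z : ℤ) : ℚ)
          = (b : ℚ)^2 * (t j * inc ℚ x y j z) := by
        intro j _
        rw [ht', inc_cast]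
        ring
      rw [Finset.sum_congr rfl h7, ← Finset.mul_sum, h5 z hz hzx, mul_one]
    have h7 : (0 : ℚ) < ((∑ j ∈ inner x y W, (b * t' j) * inc ℤ x y j z : ℤ) : ℚ) := by
      rw [h6]
      have : (b : ℚ) ≠ 0 := by exact_mod_cast hb0
      positivity
    exact_mod_cast h7

/-- Positivity near an integer point kills a weighted sum of squares of polynomials. -/
lemma sos_zero {ι : Type} [Fintype ι] {N : ℕ} (c : ι → ℤ[X]) (h : ι → Fin N → ℤ[X]) (κ : ℤ)
    (hc : ∀ z, 0 < (c z).eval κ) (hsum : ∑ z, c z * ∑ n, (h z n) ^ 2 = 0) :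
    ∀ z n, h z n = 0 := by
  intro z0 n0
  have hpos : ∀ z, ∀ᶠ r in nhds (κ : ℝ), 0 < aeval r (c z) := by
    intro z
    have hcont : Continuous fun r : ℝ => aeval r (c z) := Polynomial.continuous_aeval (c z)
    have h0 : (0 : ℝ) < aeval (κ : ℝ) (c z) := by
      have : aeval (κ : ℝ) (c z) = (((c z).eval κ : ℤ) : ℝ) := by
        have := Polynomial.aeval_algebraMap_apply ℝ κ (c z)
        simpa using this
      rw [this]
      exact_mod_cast hc z
    exact hcont.continuousAt.eventually_mem (Ioi_mem_nhds h0)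
  have hall : ∀ᶠ r in nhds (κ : ℝ), ∀ z, 0 < aeval r (c z) := by
    rw [Filter.eventually_all]
    exact hpos
  have hzero : ∀ᶠ r in nhds (κ : ℝ), aeval r (h z0 n0) = 0 := by
    filter_upwards [hall] with r hr
    have h1 : ∑ z, aeval r (c z) * ∑ n, (aeval r (h z n)) ^ 2 = 0 := by
      have := congrArg (aeval r) hsum
      simpa using this
    have h2 := (Finset.sum_eq_zero_iff_of_nonneg (fun z _ => mul_nonneg (hr z).le
      (Finset.sum_nonneg (fun n _ => sq_nonneg (aeval r (h z n)))))).mp h1 z0 (Finset.mem_univ _)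
    rcases mul_eq_zero.mp h2 with h3 | h3
    · exact absurd h3 (hr z0).ne'
    · have h4 := (Finset.sum_eq_zero_iff_of_nonneg
        (fun n _ => sq_nonneg (aeval r (h z0 n)))).mp h3 n0 (Finset.mem_univ _)
      exact pow_eq_zero_iff (two_ne_zero) |>.mp h4
  have hinf : {r : ℝ | ((h z0 n0).map (Int.castRingHom ℝ)).IsRoot r}.Infinite := by
    apply infinite_of_mem_nhds (κ : ℝ)
    filter_upwards [hzero] with r hr
    change ((h z0 n0).map (Int.castRingHom ℝ)).eval r = 0
    rw [Polynomial.eval_map]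
    exact hr
  have h5 := Polynomial.eq_zero_of_infinite_isRoot _ hinf
  exact (Polynomial.map_eq_zero_iff (RingHom.injective_int (Int.castRingHom ℝ))).mp h5

/-- The kernel lemma. -/
theorem kernel_lemma (s N : ℕ) (x y : E → V) (W : Finset V) (x0 : V)
    (P : E → Fin s → ℤ) (t : E → ℤ)
    (hstress : ∀ z ∈ W, ∀ i, ∑ j ∈ inner x y W, P j i * inc ℤ x y j z = 0)
    (hspan : ∀ b : V → Fin s → ℤ,
        (∀ j ∈ inner x y W, ∑ i, P j i * (b (x j) i - b (y j) i) = 0) →
          ∀ z ∈ W, b z = b x0)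
    (hpos : ∀ z ∈ W, z ≠ x0 → 0 < ∑ j ∈ inner x y W, t j * inc ℤ x y j z)
    (Λ : E → Fin s → ℤ[X]) (τ : E → ℤ[X]) (κ D : ℤ) (hD : D ≠ 0)
    (hΛ : ∀ j i, (Λ j i).eval κ = D * P j i) (hτ : ∀ j, (τ j).eval κ = D * t j)
    (b : V → Fin s → Fin N → ℤ[X]) (a : V → Fin N → ℤ[X])
    (hnorm : ∀ z w, ∑ n, (a z n) ^ 2 = ∑ n, (a w n) ^ 2)
    (hrel : ∀ j n, ∑ i, Λ j i * b (x j) i n + τ j * a (x j) n
        = ∑ i, Λ j i * b (y j) i n + τ j * a (y j) n) :
    ∀ z ∈ W, a z = a x0 ∧ b z = b x0 := by
  classical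
  let Z : Type := {z // z ∈ W.erase x0}
  let I : Type := Fin s × Z
  let L : Matrix I E ℤ[X] := fun iz j =>
    if j ∈ inner x y W then Λ j iz.1 * inc ℤ[X] x y j iz.2.1 else 0
  let L0 : Matrix I E ℤ := fun iz j =>
    if j ∈ inner x y W then P j iz.1 * inc ℤ x y j iz.2.1 else 0
  let B : Matrix E I ℤ[X] := fun j iz => C (L0 iz j)
  let G : Matrix I I ℤ[X] := L * B
  have hinc : ∀ j z, (inc ℤ[X] x y j z).eval κ = inc ℤ x y j z := by
    intro j z
    unfold inc
    by_cases h1 : x j = z <;> by_cases h2 : y j = z <;> simp [h1, h2]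
  have hLκ : ∀ iz j, (L iz j).eval κ = D * L0 iz j := by
    intro iz j
    simp only [L, L0]
    by_cases hj : j ∈ inner x y W
    · rw [if_pos hj, if_pos hj, eval_mul, hΛ, hinc]
      ring
    · rw [if_neg hj, if_neg hj]
      simp
  have hGκ : ∀ iz iz', (G iz iz').eval κ = D * (L0 * L0.transpose) iz iz' := by
    intro iz iz'
    simp only [G, Matrix.mul_apply, Polynomial.eval_finsetSum, eval_mul, Matrix.transpose_apply]
    rw [Finset.mul_sum]
    apply Finset.sum_congr rfl
    intro j _
    rw [hLκ]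
    simp only [B, eval_C]
    ring
  have hdet : (G.det).eval κ ≠ 0 := by
    intro h0
    have h1 : ((Polynomial.evalRingHom κ).mapMatrix G).det = 0 := by
      rw [← RingHom.map_det]
      exact h0
    obtain ⟨v, hv0, hv⟩ := Matrix.exists_vecMul_eq_zero_iff.mpr h1
    apply hv0
    have h2 : (Polynomial.evalRingHom κ).mapMatrix G = D • (L0 * L0.transpose) := by
      ext iz iz'
      rw [RingHom.mapMatrix_apply, Matrix.map_apply, Matrix.smul_apply]
      exact hGκ iz iz'
    rw [h2, Matrix.vecMul_smul] at hv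
    have h3 : Matrix.vecMul v (L0 * L0.transpose) = 0 := by
      funext iz
      have := congrFun hv iz
      rw [Pi.smul_apply, Pi.zero_apply, smul_eq_mul] at this
      rcases mul_eq_zero.mp this with h | h
      · exact absurd h hD
      · exact h
    have h4 : ∑ j, (Matrix.vecMul v L0 j) ^ 2 = 0 := by
      have h5 : Matrix.vecMul v (L0 * L0.transpose) ⬝ᵥ v = 0 := by rw [h3]; simp
      rw [← Matrix.vecMul_vecMul, ← Matrix.dotProduct_mulVec, Matrix.mulVec_transpose] at h5
      rw [← h5]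
      simp only [dotProduct, sq]
    have h5 : ∀ j, Matrix.vecMul v L0 j = 0 := by
      intro j
      have := (Finset.sum_eq_zero_iff_of_nonneg (fun j _ => sq_nonneg (Matrix.vecMul v L0 j))).mp h4
        j (Finset.mem_univ _)
      exact pow_eq_zero_iff (two_ne_zero) |>.mp this
    let b' : V → Fin s → ℤ := fun z i => if h : z ∈ W.erase x0 then v (i, ⟨z, h⟩) else 0
    have hb'0 : b' x0 = 0 := by
      funext i
      simp only [b']
      rw [dif_neg (by simp)]
      rfl
    have hb'v : ∀ (i : Fin s) (z : Z), b' z.1 i = v (i, z) := by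
      intro i z
      simp only [b']
      rw [dif_pos z.2]
    have h6 : ∀ j ∈ inner x y W, ∑ i, P j i * (b' (x j) i - b' (y j) i) = 0 := by
      intro j hj
      have h7 := h5 j
      simp only [Matrix.vecMul, dotProduct] at h7
      rw [Fintype.sum_prod_type] at h7
      rw [← h7]
      apply Finset.sum_congr rfl
      intro i _
      have h8 : ∀ z : Z, v (i, z) * L0 (i, z) j = P j i * (inc ℤ x y j z.1 * b' z.1 i) := by
        intro z
        simp only [L0]
        rw [if_pos hj, hb'v]
        ring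
      rw [Finset.sum_congr rfl (fun z _ => h8 z), ← Finset.mul_sum]
      congr 1
      have h9 : ∑ z : Z, inc ℤ x y j z.1 * b' z.1 i
          = ∑ z ∈ W.erase x0, inc ℤ x y j z * b' z i :=
        Finset.sum_coe_sort (W.erase x0) (fun z => inc ℤ x y j z * b' z i)
      rw [h9]
      have h10 : ∑ z ∈ W.erase x0, inc ℤ x y j z * b' z i = ∑ z, inc ℤ x y j z * b' z i := by
        apply Finset.sum_subset (Finset.subset_univ _)
        intro z _ hz
        simp only [b']
        rw [dif_neg hz, mul_zero]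
      rw [h10]
      simp only [inc, sub_mul, ite_mul, one_mul, zero_mul, Finset.sum_sub_distrib]
      simp
    have h7 := hspan b' h6
    funext iz
    obtain ⟨i, z⟩ := iz
    rw [← hb'v i z, h7 z.1 (Finset.mem_erase.mp z.2).2, hb'0]
    rfl
  have hdet' : G.det ≠ 0 := by
    intro h
    rw [h] at hdet
    simp at hdet
  -- kernel vector
  let one : E → ℤ[X] := fun _ => 1
  let ω : E → ℤ[X] := G.det • one - B.mulVec (G.adjugate.mulVec (L.mulVec one))
  have hLω : L.mulVec ω = 0 := by
    simp only [ω]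
    rw [Matrix.mulVec_sub, Matrix.mulVec_smul, Matrix.mulVec_mulVec, Matrix.mulVec_mulVec,
      Matrix.mul_adjugate, Matrix.smul_mulVec, Matrix.one_mulVec, sub_self]
  have hL1 : ∀ iz, (L.mulVec one iz).eval κ = 0 := by
    intro iz
    simp only [Matrix.mulVec, dotProduct, one, mul_one, Polynomial.eval_finsetSum, hLκ]
    rw [← Finset.mul_sum]
    have h1 : ∑ j, L0 iz j = ∑ j ∈ inner x y W, P j iz.1 * inc ℤ x y j iz.2.1 := by
      simp only [L0]
      rw [← Finset.sum_filter]
      congr 1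
      ext j
      simp
    rw [h1, hstress iz.2.1 (Finset.mem_erase.mp iz.2.2).2, mul_zero]
  have hωκ : ∀ j, (ω j).eval κ = (G.det).eval κ := by
    intro j
    simp only [ω, Pi.sub_apply, Pi.smul_apply, one, smul_eq_mul, mul_one, eval_sub]
    have h1 : ((B.mulVec (G.adjugate.mulVec (L.mulVec one))) j).eval κ = 0 := by
      simp only [Matrix.mulVec, dotProduct, Polynomial.eval_finsetSum, eval_mul]
      apply Finset.sum_eq_zero
      intro iz _
      have h2 : ∑ iz' : I, (G.adjugate iz iz').eval κ * ∑ j', (L iz' j').eval κ * (one j').eval κ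
          = 0 := by
        apply Finset.sum_eq_zero
        intro iz' _
        have h3 := hL1 iz'
        simp only [Matrix.mulVec, dotProduct, Polynomial.eval_finsetSum, eval_mul] at h3
        rw [h3, mul_zero]
      rw [h2, mul_zero]
    rw [h1, sub_zero]
  -- the coefficients
  let c : Z → ℤ[X] := fun z => ∑ j ∈ inner x y W, ω j * τ j * inc ℤ[X] x y j z.1
  -- expansions of differences
  have hexp : ∀ (f : V → ℤ[X]), ∀ j ∈ inner x y W,
      f (x j) - f (y j) = ∑ z : Z, inc ℤ[X] x y j z.1 * (f z.1 - f x0) := by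
    intro f j hj
    have hj' := (mem_inner x y W j).mp hj
    have h9 : ∑ z : Z, inc ℤ[X] x y j z.1 * (f z.1 - f x0)
        = ∑ z ∈ W.erase x0, inc ℤ[X] x y j z * (f z - f x0) :=
      Finset.sum_coe_sort (W.erase x0) (fun z => inc ℤ[X] x y j z * (f z - f x0))
    have h10 : ∑ z ∈ W.erase x0, inc ℤ[X] x y j z * (f z - f x0)
        = ∑ z, inc ℤ[X] x y j z * (f z - f x0) := by
      apply Finset.sum_subset (Finset.subset_univ _)
      intro z _ hz
      by_cases hzx : z = x0
      · rw [hzx, sub_self, mul_zero]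
      · have hzW : z ∉ W := fun h => hz (Finset.mem_erase.mpr ⟨hzx, h⟩)
        have h1 : x j ≠ z := fun h => hzW (h ▸ hj'.1)
        have h2 : y j ≠ z := fun h => hzW (h ▸ hj'.2)
        simp [inc, h1, h2]
    rw [h9, h10]
    simp only [inc, sub_mul, ite_mul, one_mul, zero_mul, Finset.sum_sub_distrib]
    simp
  have hrel' : ∀ j n, ∑ i, Λ j i * (b (x j) i n - b (y j) i n)
      + τ j * (a (x j) n - a (y j) n) = 0 := by
    intro j n
    have := hrel j n
    simp only [mul_sub, Finset.sum_sub_distrib]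
    linear_combination this
  have hLin : ∀ n, ∑ z : Z, c z * (a z.1 n - a x0 n) = 0 := by
    intro n
    have h1 : ∑ j ∈ inner x y W, ω j * (∑ i, Λ j i * (b (x j) i n - b (y j) i n)
      + τ j * (a (x j) n - a (y j) n)) = 0 := by
      apply Finset.sum_eq_zero
      intro j _
      rw [hrel' j n, mul_zero]
    have h2 : ∑ j ∈ inner x y W, ω j * ∑ i, Λ j i * (b (x j) i n - b (y j) i n) = 0 := by
      have h3 : ∀ j ∈ inner x y W, ω j * ∑ i, Λ j i * (b (x j) i n - b (y j) i n)
          = ∑ i, ∑ z : Z, (b z.1 i n - b x0 i n) * (L (i, z) j * ω j) := by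
        intro j hj
        rw [Finset.mul_sum]
        apply Finset.sum_congr rfl
        intro i _
        rw [hexp (fun z => b z i n) j hj, Finset.mul_sum, Finset.mul_sum]
        apply Finset.sum_congr rfl
        intro z _
        simp only [L]
        rw [if_pos hj]
        ring
      rw [Finset.sum_congr rfl h3, Finset.sum_comm]
      apply Finset.sum_eq_zero
      intro i _
      rw [Finset.sum_comm]
      apply Finset.sum_eq_zero
      intro z _
      rw [← Finset.mul_sum]
      have h4 : ∑ j ∈ inner x y W, L (i, z) j * ω j = 0 := by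
        have h5 := congrFun hLω (i, z)
        simp only [Matrix.mulVec, dotProduct, Pi.zero_apply] at h5
        rw [← h5]
        apply Finset.sum_subset (Finset.subset_univ _)
        intro j _ hj
        simp only [L]
        rw [if_neg hj, zero_mul]
      rw [h4, mul_zero]
    have h3 : ∑ j ∈ inner x y W, ω j * (τ j * (a (x j) n - a (y j) n)) = 0 := by
      have h4 := h1
      simp only [mul_add, Finset.sum_add_distrib] at h4
      rw [h2, zero_add] at h4
      exact h4
    rw [← h3]
    have h4 : ∀ j ∈ inner x y W, ω j * (τ j * (a (x j) n - a (y j) n))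
        = ∑ z : Z, ω j * τ j * inc ℤ[X] x y j z.1 * (a z.1 n - a x0 n) := by
      intro j hj
      rw [hexp (fun z => a z n) j hj, Finset.mul_sum, Finset.mul_sum]
      apply Finset.sum_congr rfl
      intro z _
      ring
    rw [Finset.sum_congr rfl h4, Finset.sum_comm]
    apply Finset.sum_congr rfl
    intro z _
    simp only [c]
    rw [Finset.sum_mul]
  -- weighted sum of squares
  have hsq : ∀ z : Z, ∑ n, (a z.1 n - a x0 n) ^ 2 = ∑ n, (-2) * a x0 n * (a z.1 n - a x0 n) := by
    intro z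
    have h1 := hnorm z.1 x0
    have h2 : ∀ n, (a z.1 n - a x0 n) ^ 2 = (-2) * a x0 n * (a z.1 n - a x0 n)
        + ((a z.1 n) ^ 2 - (a x0 n) ^ 2) := by
      intro n; ring
    rw [Finset.sum_congr rfl (fun n _ => h2 n), Finset.sum_add_distrib, Finset.sum_sub_distrib, h1]
    ring
  have hSOS : ∑ z : Z, c z * ∑ n, (a z.1 n - a x0 n) ^ 2 = 0 := by
    have h1 : ∀ z : Z, c z * ∑ n, (a z.1 n - a x0 n) ^ 2
        = ∑ n, (-2) * a x0 n * (c z * (a z.1 n - a x0 n)) := by
      intro z
      rw [hsq z, Finset.mul_sum]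
      apply Finset.sum_congr rfl
      intro n _
      ring
    rw [Finset.sum_congr rfl (fun z _ => h1 z), Finset.sum_comm]
    apply Finset.sum_eq_zero
    intro n _
    rw [← Finset.mul_sum, hLin n, mul_zero]
  let g0 : ℤ := (G.det).eval κ
  have hcκ : ∀ z : Z, (c z).eval κ
      = g0 * D * ∑ j ∈ inner x y W, t j * inc ℤ x y j z.1 := by
    intro z
    simp only [c, Polynomial.eval_finsetSum, eval_mul]
    rw [Finset.mul_sum]
    apply Finset.sum_congr rfl
    intro j _
    rw [hωκ, hτ, hinc]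
    ring
  have hzero := sos_zero (fun z : Z => C (g0 * D) * c z) (fun z n => a z.1 n - a x0 n) κ
    (by
      intro z
      rw [eval_mul, eval_C, hcκ z]
      have h1 := hpos z.1 (Finset.mem_erase.mp z.2).2 (Finset.mem_erase.mp z.2).1
      have h2 : g0 * D ≠ 0 := mul_ne_zero hdet hD
      have h3 : 0 < (g0 * D) * (g0 * D) := mul_self_pos.mpr h2
      rw [← mul_assoc]
      exact mul_pos h3 h1)
    (by
      have h1 : ∀ z : Z, C (g0 * D) * c z * ∑ n, (a z.1 n - a x0 n) ^ 2
          = C (g0 * D) * (c z * ∑ n, (a z.1 n - a x0 n) ^ 2) := by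
        intro z; ring
      rw [Finset.sum_congr rfl (fun z _ => h1 z), ← Finset.mul_sum, hSOS, mul_zero])
  have haW : ∀ z ∈ W, a z = a x0 := by
    intro z hz
    by_cases hzx : z = x0
    · rw [hzx]
    · funext n
      have := hzero ⟨z, Finset.mem_erase.mpr ⟨hzx, hz⟩⟩ n
      exact sub_eq_zero.mp this
  intro z hz
  refine ⟨haW z hz, ?_⟩
  by_cases hzx : z = x0
  · rw [hzx]
  -- b
  funext i n
  let β : I → ℤ[X] := fun iz => b iz.2.1 iz.1 n - b x0 iz.1 n
  have hβ : Matrix.vecMul β L = 0 := by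
    funext j
    simp only [Matrix.vecMul, dotProduct, Pi.zero_apply]
    by_cases hj : j ∈ inner x y W
    · have hj' := (mem_inner x y W j).mp hj
      have h1 := hrel' j n
      rw [haW _ hj'.1, haW _ hj'.2, sub_self, mul_zero, add_zero] at h1
      rw [← h1, Fintype.sum_prod_type]
      apply Finset.sum_congr rfl
      intro i' _
      rw [hexp (fun z => b z i' n) j hj, Finset.mul_sum]
      apply Finset.sum_congr rfl
      intro z' _
      simp only [L, β]
      rw [if_pos hj]
      ring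
    · apply Finset.sum_eq_zero
      intro iz _
      simp only [L]
      rw [if_neg hj, mul_zero]
  have hβG : Matrix.vecMul β G = 0 := by
    change Matrix.vecMul β (L * B) = 0
    rw [← Matrix.vecMul_vecMul, hβ, Matrix.zero_vecMul]
  have hβ0 := Matrix.eq_zero_of_vecMul_eq_zero hdet' hβG
  have := congrFun hβ0 (i, ⟨z, Finset.mem_erase.mpr ⟨hzx, hz⟩⟩)
  exact sub_eq_zero.mp this

end kernel

end Pool.Agent.IPP
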