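import Mathlib
import Pool.Agent.IPP.Kernel

set_option autoImplicit false

namespace Pool.Agent.IPP

open Polynomial

/-- Interpolation with a common nonzero factor at every node. -/
noncomputable def interp {K : Type} [Fintype K] [DecidableEq K] (ν : K → ℤ) (f : K → ℤ) : ℤ[X] :=
  ∑ κ, C (f κ) * ∏ κ' ∈ Finset.univ.erase κ, (X - C (ν κ'))

lemma interp_eval {K : Type} [Fintype K] [DecidableEq K] (ν : K → ℤ) (f : K → ℤ) (κ : K) :
    (interp ν f).eval (ν κ) = (∏ κ' ∈ Finset.univ.erase κ, (ν κ - ν κ')) * f κ := by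
  unfold interp
  rw [Polynomial.eval_finsetSum, Finset.sum_eq_single κ]
  · simp [Polynomial.eval_prod, mul_comm]
  · intro κ' _ hne
    rw [eval_mul, Polynomial.eval_prod]
    have : ∏ κ'' ∈ Finset.univ.erase κ', (X - C (ν κ'')).eval (ν κ) = 0 := by
      apply Finset.prod_eq_zero (i := κ)
      · exact Finset.mem_erase.mpr ⟨hne.symm, Finset.mem_univ _⟩
      · simp
    rw [this, mul_zero]
  · intro h
    exact absurd (Finset.mem_univ _) h

/-- Existence of label polynomials which kill every bad configuration. -/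
theorem main_labels (s ℓ u : ℕ) (hu : 2 ≤ u) (hℓ : s * (u - 1) + 1 ≤ ℓ) :
    ∃ (Λ : Fin ℓ → Fin s → ℤ[X]) (τ : Fin ℓ → ℤ[X]),
      ∀ (N : ℕ) (b : Fin u → Fin s → Fin N → ℤ[X]) (a : Fin u → Fin N → ℤ[X]),
        (∀ z w, ∑ n, (a z n) ^ 2 = ∑ n, (a w n) ^ 2) →
        ∀ (x y : Fin ℓ → Fin u), (∀ j, ¬ (a (x j) = a (y j) ∧ b (x j) = b (y j))) →
        ¬ (∀ j n, ∑ i, Λ j i * b (x j) i n + τ j * a (x j) n
            = ∑ i, Λ j i * b (y j) i n + τ j * a (y j) n) := by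
  classical
  let K : Type := {e : (Fin ℓ → Fin u) × (Fin ℓ → Fin u) // ∀ j, e.1 j ≠ e.2 j}
  have hcert : ∀ e : K, ∃ (W : Finset (Fin u)) (x0 : Fin u) (P : Fin ℓ → Fin s → ℤ)
      (t : Fin ℓ → ℤ),
      x0 ∈ W ∧ (∃ z ∈ W, z ≠ x0) ∧
      (∀ z ∈ W, ∀ i, ∑ j ∈ inner e.1.1 e.1.2 W, P j i * inc ℤ e.1.1 e.1.2 j z = 0) ∧
      (∀ b : Fin u → Fin s → ℤ,
        (∀ j ∈ inner e.1.1 e.1.2 W, ∑ i, P j i * (b (e.1.1 j) i - b (e.1.2 j) i) = 0) →
          ∀ z ∈ W, b z = b x0) ∧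
      (∀ z ∈ W, z ≠ x0 → 0 < ∑ j ∈ inner e.1.1 e.1.2 W, t j * inc ℤ e.1.1 e.1.2 j z) := by
    intro e
    exact cert_int s e.1.1 e.1.2 e.2 (by simpa using hu) (by simpa using hℓ)
  choose W x0 P t hx0 hz0 hstress hspan hpos using hcert
  let ν : K → ℤ := fun e => ((Fintype.equivFin K e : ℕ) : ℤ)
  have hν : Function.Injective ν := by
    intro e e' h
    have h0 : ((Fintype.equivFin K e : ℕ) : ℤ) = ((Fintype.equivFin K e' : ℕ) : ℤ) := h
    have h1 : (Fintype.equivFin K e : ℕ) = (Fintype.equivFin K e' : ℕ) := Int.natCast_inj.mp h0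
    exact (Fintype.equivFin K).injective (Fin.ext h1)
  refine ⟨fun j i => interp ν (fun e => P e j i), fun j => interp ν (fun e => t e j), ?_⟩
  intro N b a hnorm x y hne hrel
  have hxy : ∀ j, x j ≠ y j := by
    intro j h
    apply hne j
    rw [h]
    exact ⟨rfl, rfl⟩
  let e : K := ⟨(x, y), hxy⟩
  let D : ℤ := ∏ κ' ∈ Finset.univ.erase e, (ν e - ν κ')
  have hD : D ≠ 0 := by
    apply Finset.prod_ne_zero_iff.mpr
    intro κ' hκ'
    rw [sub_ne_zero]
    intro h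
    exact (Finset.mem_erase.mp hκ').1 (hν h).symm
  have key := kernel_lemma s N x y (W e) (x0 e) (P e) (t e) (hstress e) (hspan e) (hpos e)
    (fun j i => interp ν (fun e => P e j i)) (fun j => interp ν (fun e => t e j)) (ν e) D hD
    (fun j i => interp_eval ν (fun e => P e j i) e) (fun j => interp_eval ν (fun e => t e j) e)
    b a hnorm hrel
  obtain ⟨z, hz, hzx⟩ := hz0 e
  have h1 := hpos e z hz hzx
  have h2 : (inner x y (W e)).Nonempty := by
    by_contra hcon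
    rw [Finset.not_nonempty_iff_eq_empty] at hcon
    have h3 : inner e.1.1 e.1.2 (W e) = ∅ := hcon
    rw [h3] at h1
    simp at h1
  obtain ⟨j, hj⟩ := h2
  have hj' := (mem_inner x y (W e) j).mp hj
  have k1 := key (x j) hj'.1
  have k2 := key (y j) hj'.2
  exact hne j ⟨k1.1.trans k2.1.symm, k1.2.trans k2.2.symm⟩

end Pool.Agent.IPP
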