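import Mathlib

set_option autoImplicit false

namespace Pool.Agent.IPP

lemma four_mul_le (m k : ℕ) : m * (k + 2 - m) ≤ (k + 2) ^ 2 / 4 := by
  rw [Nat.le_div_iff_mul_le (by norm_num)]
  rcases Nat.le_total m (k + 2) with h | h
  · obtain ⟨t, ht⟩ := Nat.exists_eq_add_of_le h
    rw [ht, Nat.add_sub_cancel_left]
    nlinarith [sq_nonneg ((m : ℤ) - t), Nat.zero_le m, Nat.zero_le t, mul_self_nonneg ((m:ℤ) - t),
      show (m * t * 4 : ℤ) ≤ (m + t) ^ 2 by nlinarith [sq_nonneg ((m : ℤ) - t)]]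
  · have : k + 2 - m = 0 := by omega
    rw [this]
    simp

/-- Reduction of the identifiable parent property to small configurations. -/
lemma ipp_of_sep {ℓ q k : ℕ} (hℓ : 1 ≤ ℓ) (C : Finset (Fin ℓ → Fin q))
    (hsep : ∀ U : Finset (Fin ℓ → Fin q), U ⊆ C → U.card ≤ (k + 2) ^ 2 / 4 →
      ∀ d : Fin ℓ → Fin q, ∃ j, (U.filter (fun c => c j = d j)).card ≤ 1) :
    ∀ x : Fin ℓ → Fin q,
      (∃ X : Finset (Fin ℓ → Fin q), X ⊆ C ∧ X.card ≤ k ∧ ∀ i : Fin ℓ, ∃ y ∈ X, y i = x i) →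
      ∃ c ∈ C, ∀ X : Finset (Fin ℓ → Fin q), X ⊆ C → X.card ≤ k →
        (∀ i : Fin ℓ, ∃ y ∈ X, y i = x i) → c ∈ X := by
  classical
  intro x hx
  by_contra hcon
  push Not at hcon
  let good : Finset (Fin ℓ → Fin q) → Prop := fun X => X.card ≤ k ∧ ∀ i : Fin ℓ, ∃ y ∈ X, y i = x i
  let PP : Finset (Finset (Fin ℓ → Fin q)) := C.powerset.filter good
  let fam : Finset (Finset (Finset (Fin ℓ → Fin q))) :=
    PP.powerset.filter (fun M => ∀ c ∈ C, ∃ X ∈ M, c ∉ X)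
  have hfam : fam.Nonempty := by
    refine ⟨PP, ?_⟩
    rw [Finset.mem_filter]
    refine ⟨Finset.mem_powerset_self _, ?_⟩
    intro c hc
    obtain ⟨X, hX, hXk, hXc, hcX⟩ := hcon c hc
    exact ⟨X, Finset.mem_filter.mpr ⟨Finset.mem_powerset.mpr hX, hXk, hXc⟩, hcX⟩
  obtain ⟨M, hM, hMmin⟩ := Finset.exists_min_image fam Finset.card hfam
  rw [Finset.mem_filter, Finset.mem_powerset] at hM
  obtain ⟨hMP, hMc⟩ := hM
  have hMX : ∀ X ∈ M, X ⊆ C ∧ X.card ≤ k ∧ ∀ i : Fin ℓ, ∃ y ∈ X, y i = x i := by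
    intro X hX
    have := Finset.mem_filter.mp (hMP hX)
    exact ⟨Finset.mem_powerset.mp this.1, this.2.1, this.2.2⟩
  -- private elements
  have hpriv : ∀ X : Finset (Fin ℓ → Fin q), X ∈ M →
      ∃ c ∈ C, c ∉ X ∧ ∀ Z ∈ M, Z ≠ X → c ∈ Z := by
    intro X hX
    by_contra hno
    push Not at hno
    have hmem : M.erase X ∈ fam := by
      rw [Finset.mem_filter, Finset.mem_powerset]
      refine ⟨(Finset.erase_subset _ _).trans hMP, ?_⟩
      intro c hc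
      by_cases hcX : c ∈ X
      · obtain ⟨Z, hZ, hcZ⟩ := hMc c hc
        have hZX : Z ≠ X := fun h => hcZ (h ▸ hcX)
        exact ⟨Z, Finset.mem_erase.mpr ⟨hZX, hZ⟩, hcZ⟩
      · obtain ⟨Z, hZ, hZX, hcZ⟩ := hno c hc hcX
        exact ⟨Z, Finset.mem_erase.mpr ⟨hZX, hZ⟩, hcZ⟩
    have h1 := hMmin _ hmem
    have h2 := Finset.card_erase_lt_of_mem hX
    omega
  have hpriv' : ∀ X : Finset (Fin ℓ → Fin q), ∃ c : Fin ℓ → Fin q, X ∈ M →
      (c ∈ C ∧ c ∉ X ∧ ∀ Z ∈ M, Z ≠ X → c ∈ Z) := by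
    intro X
    by_cases hX : X ∈ M
    · obtain ⟨c, h1, h2, h3⟩ := hpriv X hX
      exact ⟨c, fun _ => ⟨h1, h2, h3⟩⟩
    · exact ⟨x, fun h => absurd h hX⟩
  choose p hp using hpriv'
  have hpinj : Set.InjOn p (M : Set (Finset (Fin ℓ → Fin q))) := by
    intro X hX Z hZ hXZ
    by_contra hne
    have h1 := (hp X hX).2.2 Z hZ (Ne.symm hne)
    have h2 := (hp Z hZ).2.1
    rw [hXZ] at h1
    exact h2 h1
  let Y : Finset (Fin ℓ → Fin q) := M.image p
  have hYc : Y.card = M.card := Finset.card_image_of_injOn hpinj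
  let U : Finset (Fin ℓ → Fin q) := M.biUnion id
  have hUC : U ⊆ C := by
    intro c hc
    rw [Finset.mem_biUnion] at hc
    obtain ⟨X, hX, hcX⟩ := hc
    exact (hMX X hX).1 hcX
  have hXY : ∀ X ∈ M, (X \ Y).card + M.card ≤ k + 1 := by
    intro X hX
    have h1 : (M.erase X).image p ⊆ X ∩ Y := by
      intro c hc
      rw [Finset.mem_image] at hc
      obtain ⟨Z, hZ, rfl⟩ := hc
      rw [Finset.mem_erase] at hZ
      rw [Finset.mem_inter]
      exact ⟨(hp Z hZ.2).2.2 X hX hZ.1.symm, Finset.mem_image_of_mem p hZ.2⟩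
    have h2 : ((M.erase X).image p).card = M.card - 1 := by
      rw [Finset.card_image_of_injOn, Finset.card_erase_of_mem hX]
      intro a ha b hb hab
      exact hpinj (Finset.mem_of_mem_erase ha) (Finset.mem_of_mem_erase hb) hab
    have h3 := Finset.card_le_card h1
    have h4 := Finset.card_sdiff_add_card_inter X Y
    have h5 := (hMX X hX).2.1
    have h6 : 0 < M.card := Finset.card_pos.mpr ⟨X, hX⟩
    omega
  have hUsub : U ⊆ Y ∪ M.biUnion (fun X => X \ Y) := by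
    intro c hc
    rw [Finset.mem_biUnion] at hc
    obtain ⟨X, hX, hcX⟩ := hc
    rw [Finset.mem_union]
    by_cases hcY : c ∈ Y
    · exact Or.inl hcY
    · right
      rw [Finset.mem_biUnion]
      exact ⟨X, hX, Finset.mem_sdiff.mpr ⟨hcX, hcY⟩⟩
  have hUcard : U.card ≤ M.card * (k + 2 - M.card) := by
    have h1 := Finset.card_le_card hUsub
    have h2 := Finset.card_union_le Y (M.biUnion (fun X => X \ Y))
    have h3 : (M.biUnion (fun X => X \ Y)).card ≤ M.card * (k + 1 - M.card) := by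
      apply Finset.card_biUnion_le_card_mul
      intro X hX
      have := hXY X hX
      omega
    rcases Nat.eq_zero_or_pos M.card with h0 | h0
    · rw [h0] at h3 hYc ⊢
      omega
    · obtain ⟨X, hX⟩ := Finset.card_pos.mp h0
      have h4 := hXY X hX
      have h5 : k + 2 - M.card = (k + 1 - M.card) + 1 := by omega
      rw [h5, Nat.mul_add, Nat.mul_one]
      omega
  have hUcard' : U.card ≤ (k + 2) ^ 2 / 4 := hUcard.trans (four_mul_le _ _)
  obtain ⟨j, hj⟩ := hsep U hUC hUcard' x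
  -- M nonempty
  obtain ⟨X0, hX0C, _, hX0c⟩ := hx
  obtain ⟨y0, hy0, _⟩ := hX0c ⟨0, by omega⟩
  obtain ⟨X, hX, _⟩ := hMc y0 (hX0C hy0)
  obtain ⟨c, hcX, hcj⟩ := (hMX X hX).2.2 j
  have hcU : c ∈ U.filter (fun c => c j = x j) :=
    Finset.mem_filter.mpr ⟨Finset.mem_biUnion.mpr ⟨X, hX, hcX⟩, hcj⟩
  obtain ⟨Z, hZ, hcZ⟩ := hMc c ((hMX X hX).1 hcX)
  obtain ⟨c', hc'Z, hc'j⟩ := (hMX Z hZ).2.2 j
  have hc'U : c' ∈ U.filter (fun c => c j = x j) :=
    Finset.mem_filter.mpr ⟨Finset.mem_biUnion.mpr ⟨Z, hZ, hc'Z⟩, hc'j⟩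
  have := Finset.card_le_one.mp hj c hcU c' hc'U
  rw [this] at hcZ
  exact hcZ hc'Z

end Pool.Agent.IPP
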