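import Mathlib
import Pool.Agent.IPP.Labels
import Pool.Agent.IPP.Parent

set_option autoImplicit false

namespace Pool.Agent.IPP

open Polynomial

/-- the polynomial with prescribed coefficients -/
noncomputable def tp {n M : ℕ} (f : Fin n → Fin M) : ℤ[X] :=
  ∑ a : Fin n, C (((f a : ℕ) : ℤ)) * X ^ (a : ℕ)

lemma tp_coeff {n M : ℕ} (f : Fin n → Fin M) (k : ℕ) :
    (tp f).coeff k = if h : k < n then (((f ⟨k, h⟩ : Fin M) : ℕ) : ℤ) else 0 := by
  unfold tp
  rw [Polynomial.finsetSum_coeff]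
  simp only [Polynomial.coeff_C_mul, Polynomial.coeff_X_pow]
  by_cases h : k < n
  · rw [dif_pos h, Finset.sum_eq_single ⟨k, h⟩]
    · simp
    · intro b _ hb
      have : k ≠ (b : ℕ) := by
        intro hk
        apply hb
        exact Fin.ext hk.symm
      rw [if_neg this, mul_zero]
    · intro h'
      exact absurd (Finset.mem_univ _) h'
  · rw [dif_neg h]
    apply Finset.sum_eq_zero
    intro b _
    have : k ≠ (b : ℕ) := by
      intro hk
      apply h
      rw [hk]
      exact b.2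
    rw [if_neg this, mul_zero]

lemma tp_injective {n M : ℕ} : Function.Injective (tp : (Fin n → Fin M) → ℤ[X]) := by
  intro f g h
  funext a
  have h1 := congrArg (fun p => Polynomial.coeff p (a : ℕ)) h
  simp only [tp_coeff, dif_pos a.2] at h1
  apply Fin.ext
  exact_mod_cast h1

lemma tp_zero {n M : ℕ} (f : Fin n → Fin M) (k : ℕ) (hk : n ≤ k) : (tp f).coeff k = 0 := by
  rw [tp_coeff, dif_neg (by omega)]

lemma tp_abs {n M : ℕ} (f : Fin n → Fin M) (k : ℕ) : |(tp f).coeff k| ≤ (M : ℤ) := by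
  rw [tp_coeff]
  by_cases h : k < n
  · rw [dif_pos h, abs_of_nonneg (by positivity)]
    exact_mod_cast (f ⟨k, h⟩).2.le
  · rw [dif_neg h]
    simp

/-- sum of absolute values of the coefficients -/
noncomputable def l1 (p : ℤ[X]) : ℤ := ∑ k ∈ p.support, |p.coeff k|

lemma l1_nonneg (p : ℤ[X]) : 0 ≤ l1 p := Finset.sum_nonneg (fun _ _ => abs_nonneg _)

lemma coeff_mul_le (p g : ℤ[X]) (B : ℤ) (hB : 0 ≤ B) (hg : ∀ k, |g.coeff k| ≤ B) (k : ℕ) :
    |(p * g).coeff k| ≤ l1 p * B := by
  rw [Polynomial.coeff_mul]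
  refine (Finset.abs_sum_le_sum_abs _ _).trans ?_
  have h1 : ∀ x ∈ Finset.HasAntidiagonal.antidiagonal k, |p.coeff x.1 * g.coeff x.2| ≤ |p.coeff x.1| * B := by
    intro x _
    rw [abs_mul]
    exact mul_le_mul_of_nonneg_left (hg _) (abs_nonneg _)
  refine (Finset.sum_le_sum h1).trans ?_
  rw [← Finset.sum_mul]
  apply mul_le_mul_of_nonneg_right _ hB
  rw [Finset.Nat.sum_antidiagonal_eq_sum_range_succ_mk]
  have h2 : ∑ i ∈ Finset.range (k + 1), |p.coeff i|
      = ∑ i ∈ (Finset.range (k + 1)).filter (fun i => i ∈ p.support), |p.coeff i| := by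
    rw [Finset.sum_filter_of_ne]
    intro i _ hi
    rw [Polynomial.mem_support_iff]
    intro h0
    apply hi
    rw [h0, abs_zero]
  change ∑ i ∈ Finset.range (k + 1), |p.coeff i| ≤ l1 p
  rw [h2]
  apply Finset.sum_le_sum_of_subset_of_nonneg
  · intro i hi
    exact (Finset.mem_filter.mp hi).2
  · intro i _ _
    exact abs_nonneg _

lemma coeff_mul_zero (p g : ℤ[X]) (D n : ℕ) (hp : p.natDegree ≤ D)
    (hg : ∀ k, n ≤ k → g.coeff k = 0) (k : ℕ) (hk : n + D ≤ k) : (p * g).coeff k = 0 := by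
  rw [Polynomial.coeff_mul]
  apply Finset.sum_eq_zero
  intro x hx
  rw [Finset.HasAntidiagonal.mem_antidiagonal] at hx
  by_cases h : n ≤ x.2
  · rw [hg _ h, mul_zero]
  · rw [Polynomial.coeff_eq_zero_of_natDegree_lt (by omega), zero_mul]

lemma card_bound {N K B : ℕ} (S : Finset (Fin N → ℤ[X]))
    (h : ∀ p ∈ S, ∀ m, (∀ k, K ≤ k → (p m).coeff k = 0) ∧ ∀ k, |(p m).coeff k| ≤ (B : ℤ)) :
    S.card ≤ (2 * B + 1) ^ (N * K) := by
  classical
  let T : Finset (Fin N → Fin K → ℤ) :=
    Fintype.piFinset (fun _ => Fintype.piFinset (fun _ => Finset.Icc (-(B : ℤ)) B))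
  have hT : T.card = (2 * B + 1) ^ (N * K) := by
    simp only [T, Fintype.card_piFinset, Finset.prod_const, Finset.card_univ, Fintype.card_fin,
      Int.card_Icc]
    rw [← pow_mul, Nat.mul_comm K N]
    congr 1
    omega
  rw [← hT]
  apply Finset.card_le_card_of_injOn (fun p => fun m (k : Fin K) => (p m).coeff (k : ℕ))
  · intro p hp
    simp only [T, Finset.mem_coe, Fintype.mem_piFinset, Finset.mem_Icc]
    intro m k
    exact abs_le.mp ((h p hp m).2 k)
  · intro p hp p' hp' heq
    funext m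
    ext k
    by_cases hk : K ≤ k
    · rw [(h p hp m).1 k hk, (h p' hp' m).1 k hk]
    · have := congrFun (congrFun heq m) ⟨k, by omega⟩
      exact this

/-- data -/
abbrev Dt (s N n M : ℕ) : Type := (Fin s → Fin N → Fin n → Fin M) × (Fin N → Fin n → Fin M)

noncomputable def sym {s ℓ N n M : ℕ} (Λ : Fin ℓ → Fin s → ℤ[X]) (τ : Fin ℓ → ℤ[X]) (j : Fin ℓ)
    (d : Dt s N n M) : Fin N → ℤ[X] :=
  fun m => ∑ i, Λ j i * tp (d.1 i m) + τ j * tp (d.2 m)

noncomputable def qn {s N n M : ℕ} (d : Dt s N n M) : ℤ[X] := ∑ m, (tp (d.2 m)) ^ 2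

lemma tp_l1 {n M : ℕ} (f : Fin n → Fin M) : l1 (tp f) ≤ (n : ℤ) * M := by
  unfold l1
  have h1 : (tp f).support ⊆ Finset.range n := by
    intro k hk
    rw [Finset.mem_range]
    by_contra hcon
    rw [Polynomial.mem_support_iff] at hk
    exact hk (tp_zero f k (by omega))
  calc ∑ k ∈ (tp f).support, |(tp f).coeff k| ≤ ∑ k ∈ (tp f).support, (M : ℤ) :=
        Finset.sum_le_sum (fun k _ => tp_abs f k)
    _ = (tp f).support.card * (M : ℤ) := by rw [Finset.sum_const, nsmul_eq_mul]
    _ ≤ (n : ℤ) * M := by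
        apply mul_le_mul_of_nonneg_right _ (by positivity)
        have := Finset.card_le_card h1
        rw [Finset.card_range] at this
        exact_mod_cast this

lemma tp_natDegree {n M : ℕ} (f : Fin n → Fin M) : (tp f).natDegree ≤ n := by
  rw [Polynomial.natDegree_le_iff_coeff_eq_zero]
  intro k hk
  exact tp_zero f k hk.le

lemma qn_bound {s N n M : ℕ} (d : Dt s N n M) :
    (∀ k, 2 * n ≤ k → (qn d).coeff k = 0) ∧
      ∀ k, |(qn d).coeff k| ≤ ((N * n * M * M : ℕ) : ℤ) := by
  constructor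
  · intro k hk
    unfold qn
    rw [Polynomial.finsetSum_coeff]
    apply Finset.sum_eq_zero
    intro m _
    rw [sq]
    exact coeff_mul_zero _ _ n n (tp_natDegree _) (fun k hk => tp_zero _ k hk) k (by omega)
  · intro k
    unfold qn
    rw [Polynomial.finsetSum_coeff]
    refine (Finset.abs_sum_le_sum_abs _ _).trans ?_
    have h1 : ∀ m ∈ (Finset.univ : Finset (Fin N)),
        |((tp (d.2 m)) ^ 2).coeff k| ≤ (n : ℤ) * M * M := by
      intro m _
      rw [sq]
      refine (coeff_mul_le _ _ (M : ℤ) (by positivity) (fun k => tp_abs _ k) k).trans ?_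
      exact mul_le_mul_of_nonneg_right (tp_l1 _) (by positivity)
    refine (Finset.sum_le_sum h1).trans ?_
    rw [Finset.sum_const, Finset.card_univ, Fintype.card_fin, nsmul_eq_mul]
    push_cast
    apply le_of_eq
    ring

lemma exists_fiber {α β : Type} [DecidableEq β] (S : Finset α) (f : α → β) (hS : S.Nonempty) :
    ∃ v, S.card ≤ (S.image f).card * (S.filter (fun a => f a = v)).card := by
  classical
  obtain ⟨v, _, hv⟩ := Finset.exists_max_image (S.image f)
    (fun v => (S.filter (fun a => f a = v)).card) (hS.image f)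
  refine ⟨v, ?_⟩
  rw [Finset.card_eq_sum_card_image f S]
  calc ∑ b ∈ S.image f, (S.filter (fun a => f a = b)).card
      ≤ ∑ _b ∈ S.image f, (S.filter (fun a => f a = v)).card := Finset.sum_le_sum hv
    _ = (S.image f).card * (S.filter (fun a => f a = v)).card := by
        rw [Finset.sum_const, smul_eq_mul]

lemma exists_injOn {β : Type} [DecidableEq β] (S : Finset β) (q : ℕ) (hq : 0 < q)
    (h : S.card ≤ q) : ∃ f : β → Fin q, Set.InjOn f (S : Set β) := by
  classical
  refine ⟨fun p => if hp : p ∈ S then Fin.castLE h (S.equivFin ⟨p, hp⟩) else ⟨0, hq⟩, ?_⟩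
  intro a ha b hb hab
  have ha' : a ∈ S := ha
  have hb' : b ∈ S := hb
  simp only [dif_pos ha', dif_pos hb'] at hab
  have h1 := Fin.castLE_injective h hab
  have h2 := S.equivFin.injective h1
  exact congrArg Subtype.val h2

theorem code_exists (s ℓ k : ℕ) (hk : 1 ≤ k)
    (hℓ : s * ((k + 2) ^ 2 / 4 - 1) + 1 ≤ ℓ) :
    ∃ Dg Lc : ℕ, ∀ N n M q : ℕ, 1 ≤ M → (2 * (Lc * M) + 1) ^ (N * (n + Dg)) ≤ q →
      ∃ Co : Finset (Fin ℓ → Fin q),
        (∀ x : Fin ℓ → Fin q,
          (∃ X : Finset (Fin ℓ → Fin q), X ⊆ Co ∧ X.card ≤ k ∧ ∀ i : Fin ℓ, ∃ y ∈ X, y i = x i) →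
          ∃ c ∈ Co, ∀ X : Finset (Fin ℓ → Fin q), X ⊆ Co → X.card ≤ k →
            (∀ i : Fin ℓ, ∃ y ∈ X, y i = x i) → c ∈ X) ∧
        M ^ ((s + 1) * N * n) ≤ (2 * (N * n * M * M) + 1) ^ (2 * n) * Co.card := by
  classical
  set u := (k + 2) ^ 2 / 4 with hu
  have hu2 : 2 ≤ u := by
    rw [hu, Nat.le_div_iff_mul_le (by norm_num)]
    nlinarith
  obtain ⟨Λ, τ, hΛτ⟩ := main_labels s ℓ u hu2 hℓ
  let Dg : ℕ := ∑ j, (∑ i, (Λ j i).natDegree + (τ j).natDegree)
  let Lc : ℕ := ∑ j, (∑ i, (l1 (Λ j i)).toNat + (l1 (τ j)).toNat)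
  have hDΛ : ∀ j i, (Λ j i).natDegree ≤ Dg := by
    intro j i
    calc (Λ j i).natDegree ≤ ∑ i, (Λ j i).natDegree :=
          Finset.single_le_sum (f := fun i => (Λ j i).natDegree) (fun _ _ => Nat.zero_le _)
            (Finset.mem_univ i)
      _ ≤ ∑ i, (Λ j i).natDegree + (τ j).natDegree := Nat.le_add_right _ _
      _ ≤ Dg := Finset.single_le_sum
            (f := fun j => ∑ i, (Λ j i).natDegree + (τ j).natDegree)
            (fun _ _ => Nat.zero_le _) (Finset.mem_univ j)
  have hDτ : ∀ j, (τ j).natDegree ≤ Dg := by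
    intro j
    calc (τ j).natDegree ≤ ∑ i, (Λ j i).natDegree + (τ j).natDegree := Nat.le_add_left _ _
      _ ≤ Dg := Finset.single_le_sum
            (f := fun j => ∑ i, (Λ j i).natDegree + (τ j).natDegree)
            (fun _ _ => Nat.zero_le _) (Finset.mem_univ j)
  have hLc : ∀ j, ∑ i, l1 (Λ j i) + l1 (τ j) ≤ (Lc : ℤ) := by
    intro j
    have h1 : ∑ i, (l1 (Λ j i)).toNat + (l1 (τ j)).toNat ≤ Lc :=
      Finset.single_le_sum (f := fun j => ∑ i, (l1 (Λ j i)).toNat + (l1 (τ j)).toNat)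
        (fun _ _ => Nat.zero_le _) (Finset.mem_univ j)
    have h2 : ((∑ i, (l1 (Λ j i)).toNat + (l1 (τ j)).toNat : ℕ) : ℤ)
        = ∑ i, l1 (Λ j i) + l1 (τ j) := by
      push_cast
      congr 1
      · apply Finset.sum_congr rfl
        intro i _
        exact Int.toNat_of_nonneg (l1_nonneg _)
      · exact Int.toNat_of_nonneg (l1_nonneg _)
    rw [← h2]
    exact_mod_cast h1
  refine ⟨Dg, Lc, ?_⟩
  intro N n M q hM hq
  have hq0 : 0 < q := lt_of_lt_of_le (by positivity) hq
  -- symbols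
  let Sy : Fin ℓ → Finset (Fin N → ℤ[X]) :=
    fun j => (Finset.univ : Finset (Dt s N n M)).image (sym Λ τ j)
  have hSy : ∀ j, (Sy j).card ≤ q := by
    intro j
    refine le_trans ?_ hq
    apply card_bound
    intro p hp m
    obtain ⟨d, _, rfl⟩ := Finset.mem_image.mp hp
    constructor
    · intro c hc
      simp only [sym, Polynomial.coeff_add, Polynomial.finsetSum_coeff]
      rw [coeff_mul_zero (τ j) _ Dg n (hDτ j) (fun k hk => tp_zero _ k hk) c hc, add_zero]
      apply Finset.sum_eq_zero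
      intro i _
      exact coeff_mul_zero (Λ j i) _ Dg n (hDΛ j i) (fun k hk => tp_zero _ k hk) c hc
    · intro c
      simp only [sym, Polynomial.coeff_add, Polynomial.finsetSum_coeff]
      have h1 : |(τ j * tp (d.2 m)).coeff c| ≤ l1 (τ j) * M :=
        coeff_mul_le _ _ _ (by positivity) (fun k => tp_abs _ k) c
      have h2 : |∑ i, (Λ j i * tp (d.1 i m)).coeff c| ≤ (∑ i, l1 (Λ j i)) * M := by
        refine (Finset.abs_sum_le_sum_abs _ _).trans ?_
        rw [Finset.sum_mul]
        apply Finset.sum_le_sum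
        intro i _
        exact coeff_mul_le _ _ _ (by positivity) (fun k => tp_abs _ k) c
      refine (abs_add_le _ _).trans ((add_le_add h2 h1).trans ?_)
      rw [← add_mul]
      push_cast
      exact mul_le_mul_of_nonneg_right (hLc j) (by positivity)
  have hf : ∀ j, ∃ f : (Fin N → ℤ[X]) → Fin q, Set.InjOn f (Sy j : Set (Fin N → ℤ[X])) :=
    fun j => exists_injOn (Sy j) q hq0 (hSy j)
  choose f hf using hf
  -- the level set
  have hne : (Finset.univ : Finset (Dt s N n M)).Nonempty := by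
    have : Nonempty (Fin M) := ⟨⟨0, by omega⟩⟩
    exact Finset.univ_nonempty
  obtain ⟨v, hv⟩ := exists_fiber (Finset.univ : Finset (Dt s N n M)) (fun d => qn d) hne
  set D0 : Finset (Dt s N n M) := Finset.univ.filter (fun d => qn d = v) with hD0
  have himg : ((Finset.univ : Finset (Dt s N n M)).image (fun d => qn d)).card
      ≤ (2 * (N * n * M * M) + 1) ^ (2 * n) := by
    let S1 : Finset (Fin 1 → ℤ[X]) :=
      (Finset.univ : Finset (Dt s N n M)).image (fun d => fun _ => qn d)
    have h1 : ((Finset.univ : Finset (Dt s N n M)).image (fun d => qn d)).card ≤ S1.card := by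
      apply Finset.card_le_card_of_injOn (fun p => fun _ => p)
      · intro p hp
        obtain ⟨d, _, rfl⟩ := Finset.mem_image.mp (Finset.mem_coe.mp hp)
        exact Finset.mem_coe.mpr (Finset.mem_image.mpr ⟨d, Finset.mem_univ _, rfl⟩)
      · intro p _ p' _ hpp
        exact congrFun hpp 0
    have h2 := card_bound (N := 1) (K := 2 * n) (B := N * n * M * M) S1 (by
      intro p hp m
      obtain ⟨d, _, rfl⟩ := Finset.mem_image.mp hp
      exact qn_bound d)
    rw [Nat.one_mul] at h2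
    exact h1.trans h2
  have hcardD : (Finset.univ : Finset (Dt s N n M)).card = M ^ ((s + 1) * N * n) := by
    rw [Finset.card_univ]
    simp only [Dt, Fintype.card_prod, Fintype.card_fun, Fintype.card_fin]
    rw [← pow_mul, ← pow_mul, ← pow_mul, ← pow_add]
    congr 1
    ring
  -- words
  let w : Dt s N n M → (Fin ℓ → Fin q) := fun d j => f j (sym Λ τ j d)
  have hsymeq : ∀ j (d d' : Dt s N n M), w d j = w d' j → sym Λ τ j d = sym Λ τ j d' := by
    intro j d d' h
    apply hf j _ _ h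
    · exact Finset.mem_coe.mpr (Finset.mem_image_of_mem _ (Finset.mem_univ _))
    · exact Finset.mem_coe.mpr (Finset.mem_image_of_mem _ (Finset.mem_univ _))
  have hkey : ∀ (δ : Fin u → Dt s N n M), (∀ z, δ z ∈ D0) → ∀ (x y : Fin ℓ → Fin u),
      (∀ j, δ (x j) ≠ δ (y j)) → ¬ (∀ j, w (δ (x j)) j = w (δ (y j)) j) := by
    intro δ hδ x y hxy hw
    apply hΛτ N (fun z i m => tp ((δ z).1 i m)) (fun z m => tp ((δ z).2 m)) ?_ x y ?_ ?_
    · intro z z'
      have h1 := (Finset.mem_filter.mp (hδ z)).2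
      have h2 := (Finset.mem_filter.mp (hδ z')).2
      unfold qn at h1 h2
      rw [h1, h2]
    · intro j hj
      apply hxy j
      apply Prod.ext
      · funext i m
        exact tp_injective (congrFun (congrFun hj.2 i) m)
      · funext m
        exact tp_injective (congrFun hj.1 m)
    · intro j m
      have := congrFun (hsymeq j _ _ (hw j)) m
      exact this
  have hℓ1 : 1 ≤ ℓ := by omega
  have hinj : Set.InjOn w (D0 : Set (Dt s N n M)) := by
    intro d hd d' hd' h
    by_contra hne'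
    let z0 : Fin u := ⟨0, by omega⟩
    let z1 : Fin u := ⟨1, by omega⟩
    have h01 : z1 ≠ z0 := by
      intro hh
      have := congrArg Fin.val hh
      simp [z0, z1] at this
    let δ : Fin u → Dt s N n M := fun z => if z = z0 then d else d'
    apply hkey δ ?_ (fun _ => z0) (fun _ => z1) ?_ ?_
    · intro z
      by_cases hz : z = z0
      · simp only [δ, if_pos hz]; exact hd
      · simp only [δ, if_neg hz]; exact hd'
    · intro j
      simp only [δ, if_neg h01, if_true]
      exact hne'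
    · intro j
      simp only [δ, if_neg h01, if_true]
      rw [h]
  refine ⟨D0.image w, ?_, ?_⟩
  · apply ipp_of_sep hℓ1
    intro U hU hUc d
    by_contra hcon
    push Not at hcon
    have hpair : ∀ j, ∃ c c', c ∈ U ∧ c' ∈ U ∧ c ≠ c' ∧ c j = d j ∧ c' j = d j := by
      intro j
      obtain ⟨c, hc, c', hc', hcc⟩ := Finset.one_lt_card.mp (hcon j)
      rw [Finset.mem_filter] at hc hc'
      exact ⟨c, c', hc.1, hc'.1, hcc, hc.2, hc'.2⟩
    choose c c' hc hc' hcc hcd hcd' using hpair
    have hUne : Nonempty {x // x ∈ U} := ⟨⟨c ⟨0, by omega⟩, hc _⟩⟩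
    let emb : {x // x ∈ U} → Fin u := fun x => Fin.castLE hUc (U.equivFin x)
    have hemb : Function.Injective emb := by
      intro a b hab
      exact U.equivFin.injective (Fin.castLE_injective _ hab)
    have hlift : ∀ x : {x // x ∈ U}, ∃ δ ∈ D0, w δ = x.1 := by
      intro x
      obtain ⟨δ, hδ, hδx⟩ := Finset.mem_image.mp (hU x.2)
      exact ⟨δ, hδ, hδx⟩
    choose lift hlift1 hlift2 using hlift
    let ψ : Fin u → {x // x ∈ U} := Function.invFun emb
    have hψ : ∀ x, ψ (emb x) = x := Function.leftInverse_invFun hemb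
    apply hkey (fun z => lift (ψ z)) (fun z => hlift1 _) (fun j => emb ⟨c j, hc j⟩)
      (fun j => emb ⟨c' j, hc' j⟩)
    · intro j h
      simp only [hψ] at h
      apply hcc j
      have h1 := hlift2 ⟨c j, hc j⟩
      have h2 := hlift2 ⟨c' j, hc' j⟩
      rw [h] at h1
      exact h1.symm.trans h2
    · intro j
      simp only [hψ]
      rw [hlift2, hlift2]
      exact (hcd j).trans (hcd' j).symm
  · rw [Finset.card_image_of_injOn hinj, ← hcardD]
    exact hv.trans (Nat.mul_le_mul_right _ himg)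

end Pool.Agent.IPP
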