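import Mathlib
import Pool.Agent.IPP.Code

set_option autoImplicit false

namespace Pool.Agent.IPP

open Filter

lemma ceil_eq (ℓ u : ℕ) (hℓ : 1 ≤ ℓ) (hu : 2 ≤ u) :
    ⌈(ℓ : ℝ) / ((u : ℝ) - 1)⌉ = (((ℓ - 1) / (u - 1) + 1 : ℕ) : ℤ) := by
  obtain ⟨w, rfl⟩ : ∃ w, u = w + 1 := ⟨u - 1, by omega⟩
  have hw : 1 ≤ w := by omega
  have hw' : (0 : ℝ) < w := by exact_mod_cast hw
  simp only [Nat.add_sub_cancel]
  have h1 : (((w + 1 : ℕ) : ℝ) - 1) = w := by push_cast; ring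
  rw [h1, Int.ceil_eq_iff]
  have e1 := Nat.div_add_mod (ℓ - 1) w
  have e2 := Nat.mod_lt (ℓ - 1) (show 0 < w by omega)
  set s := (ℓ - 1) / w with hs
  have f1 : w * s + 1 ≤ ℓ := by omega
  have f2 : ℓ ≤ w * (s + 1) := by
    rw [Nat.mul_add]
    omega
  have f1' : (w : ℝ) * s + 1 ≤ ℓ := by exact_mod_cast f1
  have f2' : (ℓ : ℝ) ≤ w * (s + 1) := by exact_mod_cast f2
  constructor
  · rw [lt_div_iff₀ hw']
    push_cast
    linarith
  · rw [div_le_iff₀ hw']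
    push_cast
    linarith

/-- choice of the box size -/
lemma exists_box (L T q : ℕ) (hL : 1 ≤ L) (hT : 1 ≤ T) (hq : (2 * L + 1) ^ T ≤ q) :
    ∃ M : ℕ, 1 ≤ M ∧ (2 * (L * M) + 1) ^ T ≤ q ∧ q ≤ ((4 * L + 1) * M) ^ T := by
  classical
  let P : ℕ → Prop := fun M => (2 * (L * M) + 1) ^ T ≤ q
  have hP1 : P 1 := by simpa [P] using hq
  have hbd : ∀ M, P M → M ≤ q := by
    intro M hM
    have h1 : M ≤ 2 * (L * M) + 1 := by nlinarith
    have h2 : 2 * (L * M) + 1 ≤ (2 * (L * M) + 1) ^ T := Nat.le_self_pow (by omega) _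
    exact h1.trans (h2.trans hM)
  have h1q : 1 ≤ q := hbd 1 hP1
  let M := Nat.findGreatest P q
  have hM1 : 1 ≤ M := Nat.le_findGreatest h1q hP1
  have hPM : P M := Nat.findGreatest_spec h1q hP1
  have hPM1 : ¬ P (M + 1) := by
    intro h
    have h1 := hbd _ h
    have h2 := Nat.le_findGreatest h1 h
    omega
  refine ⟨M, hM1, hPM, ?_⟩
  have h3 : q < (2 * (L * (M + 1)) + 1) ^ T := not_le.mp hPM1
  have h4 : 2 * (L * (M + 1)) + 1 ≤ (4 * L + 1) * M := by nlinarith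
  exact h3.le.trans (Nat.pow_le_pow_left h4 T)

theorem main : ∀ ℓ k : ℕ, 1 ≤ ℓ → 1 ≤ k → ∀ ε : ℝ, 0 < ε →
      ∃ Q : ℕ, ∀ q : ℕ, Q ≤ q →
        ∃ C : Finset (Fin ℓ → Fin q),
          (∀ x : Fin ℓ → Fin q,
            (∃ X : Finset (Fin ℓ → Fin q), X ⊆ C ∧ X.card ≤ k ∧
                ∀ i : Fin ℓ, ∃ y ∈ X, y i = x i) →
            ∃ c ∈ C, ∀ X : Finset (Fin ℓ → Fin q), X ⊆ C → X.card ≤ k →
                (∀ i : Fin ℓ, ∃ y ∈ X, y i = x i) → c ∈ X) ∧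
          (q : ℝ) ^ (((⌈(ℓ : ℝ) / ((((k + 2) ^ 2 / 4 : ℕ) : ℝ) - 1)⌉ : ℤ) : ℝ) - ε)
            < (C.card : ℝ) := by
  intro ℓ k hℓ hk ε0 hε0
  set u := (k + 2) ^ 2 / 4 with hu
  have hu2 : 2 ≤ u := by
    rw [hu, Nat.le_div_iff_mul_le (by norm_num)]
    nlinarith
  rw [ceil_eq ℓ u hℓ hu2]
  set s := (ℓ - 1) / (u - 1) with hs
  have hsℓ : s * (u - 1) + 1 ≤ ℓ := by
    have := Nat.div_mul_le_self (ℓ - 1) (u - 1)
    rw [← hs] at this
    omega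
  obtain ⟨Dg, Lc, hcode⟩ := code_exists s ℓ k hk hsℓ
  set ε : ℝ := min ε0 (1 / 2) with hε
  have hεpos : 0 < ε := lt_min hε0 (by norm_num)
  have hεle : ε ≤ 1 / 2 := min_le_right _ _
  have hεle0 : ε ≤ ε0 := min_le_left _ _
  set r : ℝ := ((s + 1 : ℕ) : ℝ) with hr
  have hr1 : (1 : ℝ) ≤ r := by
    rw [hr]; push_cast
    have : (0 : ℝ) ≤ s := Nat.cast_nonneg s
    linarith
  obtain ⟨N, hN⟩ := exists_nat_ge (8 / ε)
  obtain ⟨n, hn⟩ := exists_nat_gt (2 * r * Dg / ε)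
  have hNε : 8 ≤ ε * N := by
    rw [div_le_iff₀ hεpos] at hN
    linarith
  have hnε : 2 * r * Dg < ε * n := by
    rw [div_lt_iff₀ hεpos] at hn
    linarith
  have hNpos : (0 : ℝ) < N := by
    by_contra h
    have h0 : (N : ℝ) ≤ 0 := not_lt.mp h
    nlinarith
  have hnpos : (0 : ℝ) < n := by
    by_contra h
    have h0 : (n : ℝ) ≤ 0 := not_lt.mp h
    have h2 : (0 : ℝ) ≤ Dg := Nat.cast_nonneg _
    have h1 : (0 : ℝ) ≤ 2 * r * Dg := by positivity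
    nlinarith
  have hN1 : 1 ≤ N := by exact_mod_cast hNpos
  have hn1 : 1 ≤ n := by exact_mod_cast hnpos
  set L : ℕ := Lc + 1 with hL
  set T : ℕ := N * (n + Dg) with hT
  have hT1 : 1 ≤ T := by
    rw [hT]
    exact Nat.mul_pos hN1 (by omega)
  set δ : ℝ := r * N * n - 4 * n - T * (r - ε) with hδ
  have hδpos : 0 < δ := by
    rw [hδ, hT]
    push_cast
    have h2 : (0 : ℝ) ≤ Dg := Nat.cast_nonneg _
    have h3 : 0 ≤ ε * N * Dg := by positivity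
    have h4 : N * (2 * r * Dg) < N * (ε * n) := mul_lt_mul_of_pos_left hnε hNpos
    have h5 : 8 * (n : ℝ) ≤ ε * N * n := mul_le_mul_of_nonneg_right hNε hnpos.le
    nlinarith
  set K0 : ℝ := ((4 * L + 1 : ℕ) : ℝ) ^ ((T : ℝ) * (r - ε)) * ((2 * N * n + 1 : ℕ) : ℝ) ^ (2 * n)
    with hK0
  have hev : ∀ᶠ M : ℕ in atTop, K0 < (M : ℝ) ^ δ :=
    ((tendsto_rpow_atTop hδpos).comp tendsto_natCast_atTop_atTop).eventually_gt_atTop K0
  rw [eventually_atTop] at hev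
  obtain ⟨M0, hM0⟩ := hev
  refine ⟨max ((2 * L + 1) ^ T) (((4 * L + 1) * M0) ^ T + 1), ?_⟩
  intro q hq
  have hqa : (2 * L + 1) ^ T ≤ q := (le_max_left _ _).trans hq
  have hqb : ((4 * L + 1) * M0) ^ T + 1 ≤ q := (le_max_right _ _).trans hq
  obtain ⟨M, hM1, hMq, hqM⟩ := exists_box L T q (by omega) hT1 hqa
  have hMM0 : M0 ≤ M := by
    by_contra hcon
    push Not at hcon
    have h1 : ((4 * L + 1) * M) ^ T ≤ ((4 * L + 1) * M0) ^ T :=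
      Nat.pow_le_pow_left (Nat.mul_le_mul_left _ hcon.le) T
    omega
  have hMq' : (2 * (Lc * M) + 1) ^ (N * (n + Dg)) ≤ q := by
    refine le_trans (Nat.pow_le_pow_left ?_ _) hMq
    have : Lc * M ≤ L * M := Nat.mul_le_mul_right _ (by omega)
    omega
  obtain ⟨C, hC1, hC2⟩ := hcode N n M q hM1 hMq'
  refine ⟨C, hC1, ?_⟩
  have hq1 : (1 : ℝ) ≤ q := by
    have h1 : 1 ≤ q := by omega
    exact_mod_cast h1
  have hexp : (((((s + 1 : ℕ) : ℤ) : ℤ)) : ℝ) - ε0 ≤ r - ε := by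
    rw [hr]
    push_cast
    linarith
  refine lt_of_le_of_lt (Real.rpow_le_rpow_of_exponent_le hq1 hexp) ?_
  by_contra hcon
  push Not at hcon
  set m : ℝ := (M : ℝ) with hm
  have hm1 : (1 : ℝ) ≤ m := by rw [hm]; exact_mod_cast hM1
  have hm0 : (0 : ℝ) < m := by linarith
  have hrε : 0 ≤ r - ε := by linarith
  have g1 : m ^ ((s + 1) * N * n) ≤ ((2 * N * n + 1 : ℕ) : ℝ) ^ (2 * n) * m ^ (4 * n) * (C.card : ℝ) := by
    have h1 : M ^ ((s + 1) * N * n) ≤ (2 * N * n + 1) ^ (2 * n) * M ^ (4 * n) * C.card := by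
      refine hC2.trans ?_
      apply Nat.mul_le_mul_right
      have h2 : 2 * (N * n * M * M) + 1 ≤ (2 * N * n + 1) * M ^ 2 := by
        have : 1 ≤ M ^ 2 := Nat.one_le_pow _ _ hM1
        nlinarith
      calc (2 * (N * n * M * M) + 1) ^ (2 * n) ≤ ((2 * N * n + 1) * M ^ 2) ^ (2 * n) :=
            Nat.pow_le_pow_left h2 _
        _ = (2 * N * n + 1) ^ (2 * n) * M ^ (4 * n) := by
            rw [mul_pow, ← pow_mul]
            congr 2
            ring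
    rw [hm]
    exact_mod_cast h1
  have g2 : (C.card : ℝ) ≤ (((4 * L + 1 : ℕ) : ℝ) * m) ^ ((T : ℝ) * (r - ε)) := by
    refine hcon.trans ?_
    have h1 : (q : ℝ) ≤ (((4 * L + 1 : ℕ) : ℝ) * m) ^ T := by
      rw [hm]
      exact_mod_cast hqM
    calc (q : ℝ) ^ (r - ε) ≤ ((((4 * L + 1 : ℕ) : ℝ) * m) ^ T) ^ (r - ε) :=
          Real.rpow_le_rpow (by positivity) h1 hrε
      _ = (((4 * L + 1 : ℕ) : ℝ) * m) ^ ((T : ℝ) * (r - ε)) := by
          rw [← Real.rpow_natCast, ← Real.rpow_mul (by positivity)]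
  have g3 : m ^ ((s + 1) * N * n) ≤ K0 * (m ^ (4 * (n : ℝ)) * m ^ ((T : ℝ) * (r - ε))) := by
    refine g1.trans ?_
    have h1 : ((2 * N * n + 1 : ℕ) : ℝ) ^ (2 * n) * m ^ (4 * n) * (C.card : ℝ)
        ≤ ((2 * N * n + 1 : ℕ) : ℝ) ^ (2 * n) * m ^ (4 * n)
          * (((4 * L + 1 : ℕ) : ℝ) * m) ^ ((T : ℝ) * (r - ε)) :=
      mul_le_mul_of_nonneg_left g2 (by positivity)
    refine h1.trans (le_of_eq ?_)
    rw [Real.mul_rpow (by positivity) hm0.le, hK0]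
    have h2 : m ^ (4 * (n : ℝ)) = m ^ (4 * n) := by
      rw [← Real.rpow_natCast]
      push_cast
      rfl
    rw [h2]
    ring
  have g4 : m ^ ((s + 1) * N * n) = m ^ δ * (m ^ (4 * (n : ℝ)) * m ^ ((T : ℝ) * (r - ε))) := by
    rw [← Real.rpow_add hm0, ← Real.rpow_add hm0, ← Real.rpow_natCast]
    congr 1
    rw [hδ, hr]
    push_cast
    ring
  rw [g4] at g3
  have hpos : 0 < m ^ (4 * (n : ℝ)) * m ^ ((T : ℝ) * (r - ε)) := by positivity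
  have g5 := le_of_mul_le_mul_right g3 hpos
  exact absurd (hM0 M hMM0) (not_lt.mpr g5)

end Pool.Agent.IPP
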