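import Mathlib
import Pool.Agent.IPP.Final

set_option autoImplicit false

namespace Pool.Agent.IPP

private lemma aux_T (g D x : ℝ) (hg : 1 ≤ g) (hD : 0 ≤ D) (hx0 : 0 ≤ x) (hx : x ≤ 2 * g) :
    x * (x + D) ≤ 4 * (1 + D) * g ^ 2 := by
  have h1 : x * (x + D) ≤ (2 * g) * (2 * g + D) :=
    mul_le_mul hx (by linarith) (by linarith) (by linarith)
  have h3 : g ≤ g ^ 2 := by nlinarith
  have h2 : D * g ≤ D * g ^ 2 := mul_le_mul_of_nonneg_left h3 hD
  have h4 : 0 ≤ D * g ^ 2 := mul_nonneg hD (sq_nonneg g)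
  have e : (2 * g) * (2 * g + D) = 4 * g ^ 2 + 2 * (D * g) := by ring
  have e2 : 4 * (1 + D) * g ^ 2 = 4 * g ^ 2 + 4 * (D * g ^ 2) := by ring
  rw [e] at h1
  rw [e2]
  linarith

private lemma aux_main (g D x r a m : ℝ) (hg : 1 ≤ g) (hD : 0 ≤ D) (hx0 : 0 < x) (hgx : g ≤ x)
    (hx : x ≤ 2 * g) (hr : 0 ≤ r) (ha : 0 ≤ a) (h1 : g ^ 3 ≤ x * (x + D) * (a + m)) :
    r * g ^ 3 - r * D * g ^ 2 - 4 * r * a * g ^ 2 ≤ r * (x * x) * m := by
  have hxD : (0 : ℝ) < x + D := by linarith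
  have h2 : g ^ 3 * x ≤ (x * x) * (a + m) * (x + D) := by
    calc g ^ 3 * x ≤ (x * (x + D) * (a + m)) * x := mul_le_mul_of_nonneg_right h1 hx0.le
      _ = (x * x) * (a + m) * (x + D) := by ring
  have h4 : g ^ 3 * D ≤ g ^ 2 * D * (x + D) := by
    have : g * D ≤ (x + D) * D := mul_le_mul_of_nonneg_right (by linarith) hD
    calc g ^ 3 * D = g ^ 2 * (g * D) := by ring
      _ ≤ g ^ 2 * ((x + D) * D) := mul_le_mul_of_nonneg_left this (by positivity)
      _ = g ^ 2 * D * (x + D) := by ring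
  have h5 : (g ^ 3 - g ^ 2 * D) * (x + D) ≤ ((x * x) * (a + m)) * (x + D) := by
    calc (g ^ 3 - g ^ 2 * D) * (x + D) = g ^ 3 * x + (g ^ 3 * D - g ^ 2 * D * (x + D)) := by ring
      _ ≤ g ^ 3 * x := by linarith
      _ ≤ _ := h2
  have h6 : g ^ 3 - g ^ 2 * D ≤ (x * x) * (a + m) := le_of_mul_le_mul_right h5 hxD
  have hxx : x * x ≤ 4 * g ^ 2 := by
    calc x * x ≤ (2 * g) * (2 * g) := mul_le_mul hx hx hx0.le (by linarith)
      _ = 4 * g ^ 2 := by ring
  have h7 : x * x * a ≤ 4 * g ^ 2 * a := mul_le_mul_of_nonneg_right hxx ha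
  have e : (x * x) * (a + m) = x * x * a + x * x * m := by ring
  rw [e] at h6
  have h8 : g ^ 3 - g ^ 2 * D - 4 * g ^ 2 * a ≤ (x * x) * m := by linarith
  have h9 := mul_le_mul_of_nonneg_left h8 hr
  calc r * g ^ 3 - r * D * g ^ 2 - 4 * r * a * g ^ 2 = r * (g ^ 3 - g ^ 2 * D - 4 * g ^ 2 * a) := by
        ring
    _ ≤ r * ((x * x) * m) := h9
    _ = r * (x * x) * m := by ring

private lemma aux_rest (g x m l : ℝ) (hg : 1 ≤ g) (hx0 : 0 < x) (hx : x ≤ 2 * g) (hm : 0 ≤ m)
    (hmg : m ≤ g) (hl : l ≤ 2 + 2 * x + 2 * m) : 2 * x * l ≤ 32 * g ^ 2 := by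
  have h1 : 2 * x * l ≤ 2 * x * (2 + 2 * x + 2 * m) :=
    mul_le_mul_of_nonneg_left hl (by linarith)
  have h2 : x * m ≤ 2 * g * g := mul_le_mul hx hmg hm (by linarith)
  have h3 : g ≤ g ^ 2 := by nlinarith
  have hxx : x * x ≤ (2 * g) * (2 * g) := mul_le_mul hx hx hx0.le (by linarith)
  have e : 2 * x * (2 + 2 * x + 2 * m) = 4 * x + 4 * (x * x) + 4 * (x * m) := by ring
  rw [e] at h1
  have e2 : 2 * g * g = 2 * g ^ 2 := by ring
  have e3 : (2 * g) * (2 * g) = 4 * g ^ 2 := by ring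
  rw [e2] at h2
  rw [e3] at hxx
  linarith [sq_nonneg g]

private lemma aux_log (x M : ℝ) (hx : 1 ≤ x) (hM : 1 ≤ M) :
    Real.log (2 * (x * x * M * M) + 1) ≤ 2 + 2 * x + 2 * Real.log M := by
  have hx0 : 0 < x := by linarith
  have hM0 : 0 < M := by linarith
  have h0 : (1 : ℝ) ≤ x * x * M * M := by
    have h1 : (1 : ℝ) ≤ x * x := by nlinarith
    have h2 : (1 : ℝ) ≤ x * x * M := by nlinarith
    nlinarith
  have h1 : Real.log (2 * (x * x * M * M) + 1) ≤ Real.log (3 * (x * x * M * M)) :=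
    Real.log_le_log (by positivity) (by linarith)
  have h2 : Real.log (3 * (x * x * M * M)) = Real.log 3 + (2 * Real.log x + 2 * Real.log M) := by
    rw [Real.log_mul (by norm_num) (by positivity), Real.log_mul (by positivity) (by positivity),
      Real.log_mul (by positivity) (by positivity), Real.log_mul (by positivity) (by positivity)]
    ring
  have h3 : Real.log 3 ≤ 2 := by
    have := Real.log_le_sub_one_of_pos (show (0 : ℝ) < 3 by norm_num)
    linarith
  have h4 : Real.log x ≤ x := by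
    have := Real.log_le_sub_one_of_pos hx0
    linarith
  linarith

/-- quantitative form of `main`: the loss is only `exp (-K (log q)^(2/3))`, for every `q ≥ 1` -/
theorem quant (ℓ k : ℕ) (hℓ : 1 ≤ ℓ) (hk : 1 ≤ k) :
    ∃ K : ℝ, 0 < K ∧ ∀ q : ℕ, 1 ≤ q →
      ∃ C : Finset (Fin ℓ → Fin q),
        (∀ x : Fin ℓ → Fin q,
          (∃ X : Finset (Fin ℓ → Fin q), X ⊆ C ∧ X.card ≤ k ∧
              ∀ i : Fin ℓ, ∃ y ∈ X, y i = x i) →
          ∃ c ∈ C, ∀ X : Finset (Fin ℓ → Fin q), X ⊆ C → X.card ≤ k →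
              (∀ i : Fin ℓ, ∃ y ∈ X, y i = x i) → c ∈ X) ∧
        Real.exp ((((ℓ - 1) / ((k + 2) ^ 2 / 4 - 1) + 1 : ℕ) : ℝ) * Real.log q
          - K * (Real.log q) ^ ((2 : ℝ) / 3)) ≤ (C.card : ℝ) := by
  classical
  set u := (k + 2) ^ 2 / 4 with hu
  set s := (ℓ - 1) / (u - 1) with hs
  have hsℓ : s * (u - 1) + 1 ≤ ℓ := by
    have := Nat.div_mul_le_self (ℓ - 1) (u - 1)
    rw [← hs] at this
    omega
  obtain ⟨Dg, Lc, hcode⟩ := code_exists s ℓ k hk hsℓ
  set r : ℝ := ((s + 1 : ℕ) : ℝ) with hr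
  have hr1 : (0 : ℝ) ≤ r := Nat.cast_nonneg _
  have hr0 : (0 : ℝ) < r := by rw [hr]; exact_mod_cast Nat.succ_pos s
  set L : ℕ := Lc + 1 with hL
  have hL1 : (1 : ℝ) ≤ L := by rw [hL]; push_cast; linarith [Nat.cast_nonneg (α := ℝ) Lc]
  set D : ℝ := (Dg : ℝ) with hD
  have hD0 : 0 ≤ D := Nat.cast_nonneg _
  set a : ℝ := Real.log (4 * L + 1) with ha
  set b : ℝ := Real.log (2 * L + 1) with hb
  have ha0 : 0 ≤ a := Real.log_nonneg (by linarith)
  have hb0 : 0 ≤ b := Real.log_nonneg (by linarith)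
  set g0 : ℝ := 1 + 4 * (1 + D) * b with hg0
  have hg01 : 1 ≤ g0 := by
    have : 0 ≤ 4 * (1 + D) * b := by positivity
    linarith
  have hg00 : 0 ≤ g0 := by linarith
  set K1 : ℝ := r * D + 4 * r * a + 32 with hK1
  have hK10 : 0 < K1 := by positivity
  refine ⟨r * g0 + K1, by positivity, ?_⟩
  intro q hq
  have hq1 : (1 : ℝ) ≤ q := by exact_mod_cast hq
  set lam : ℝ := Real.log q with hlam
  have hlam0 : 0 ≤ lam := Real.log_nonneg hq1
  set g : ℝ := lam ^ ((1 : ℝ) / 3) with hg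
  have hg_nn : 0 ≤ g := Real.rpow_nonneg hlam0 _
  have hg3 : g ^ 3 = lam := by
    rw [hg, ← Real.rpow_natCast, ← Real.rpow_mul hlam0]
    norm_num
  have hg2 : lam ^ ((2 : ℝ) / 3) = g ^ 2 := by
    rw [hg, ← Real.rpow_natCast, ← Real.rpow_mul hlam0]
    norm_num
  rw [hg2]
  have hK2 : 0 ≤ K1 * g ^ 2 := mul_nonneg hK10.le (sq_nonneg g)
  by_cases hsmall : g ≤ g0
  · -- one codeword
    have : Nonempty (Fin q) := ⟨⟨0, by omega⟩⟩
    let c0 : Fin ℓ → Fin q := fun _ => Classical.arbitrary _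
    refine ⟨{c0}, ?_, ?_⟩
    · intro x _
      refine ⟨c0, Finset.mem_singleton_self _, ?_⟩
      intro X hX _ hcov
      obtain ⟨y, hy, _⟩ := hcov ⟨0, by omega⟩
      have := Finset.mem_singleton.mp (hX hy)
      rw [← this]
      exact hy
    · rw [Finset.card_singleton, Nat.cast_one]
      apply Real.exp_le_one_iff.mpr
      have h1 : r * lam = r * g * g ^ 2 := by rw [← hg3]; ring
      rw [h1]
      have h2 : r * g * g ^ 2 ≤ r * g0 * g ^ 2 := by
        apply mul_le_mul_of_nonneg_right _ (sq_nonneg g)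
        exact mul_le_mul_of_nonneg_left hsmall hr1
      have e : (r * g0 + K1) * g ^ 2 = r * g0 * g ^ 2 + K1 * g ^ 2 := by ring
      rw [e]
      linarith
  · push Not at hsmall
    have hg1 : 1 < g := lt_of_le_of_lt hg01 hsmall
    set x : ℕ := ⌈g⌉₊ with hx
    have hxg : g ≤ x := Nat.le_ceil g
    have hx2 : (x : ℝ) ≤ 2 * g := by
      have := (Nat.ceil_lt_add_one hg_nn).le
      rw [← hx] at this
      linarith
    have hx1 : 1 ≤ x := by
      have : (1 : ℝ) < x := lt_of_lt_of_le hg1 hxg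
      exact_mod_cast this.le
    have hx1' : (1 : ℝ) ≤ x := by exact_mod_cast hx1
    have hx0 : (0 : ℝ) < x := by linarith
    set T : ℕ := x * (x + Dg) with hT
    have hT1 : 1 ≤ T := Nat.mul_pos hx1 (by omega)
    have hTr : (T : ℝ) = x * (x + D) := by rw [hT]; push_cast; rfl
    have hT0 : (0 : ℝ) < T := by exact_mod_cast hT1
    have hTle : (T : ℝ) ≤ 4 * (1 + D) * g ^ 2 := by
      rw [hTr]
      exact aux_T g D x hg1.le hD0 hx0.le hx2
    have hqa : (2 * L + 1) ^ T ≤ q := by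
      have h1 : (((2 * L + 1) ^ T : ℕ) : ℝ) ≤ (q : ℝ) := by
        have hqpos : (0 : ℝ) < q := by linarith
        rw [← Real.log_le_log_iff (by positivity) hqpos]
        push_cast
        rw [Real.log_pow, ← hb, ← hlam, ← hg3]
        have h2 : (T : ℝ) * b ≤ 4 * (1 + D) * g ^ 2 * b := mul_le_mul_of_nonneg_right hTle hb0
        have h3 : 4 * (1 + D) * b ≤ g := by linarith
        have h4 : 4 * (1 + D) * g ^ 2 * b = (4 * (1 + D) * b) * g ^ 2 := by ring
        rw [h4] at h2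
        have h5 : (4 * (1 + D) * b) * g ^ 2 ≤ g * g ^ 2 :=
          mul_le_mul_of_nonneg_right h3 (sq_nonneg g)
        calc (T : ℝ) * b ≤ g * g ^ 2 := h2.trans h5
          _ = g ^ 3 := by ring
      exact_mod_cast h1
    obtain ⟨M, hM1, hMq, hqM⟩ := exists_box L T q (by omega) hT1 hqa
    have hMq' : (2 * (Lc * M) + 1) ^ (x * (x + Dg)) ≤ q := by
      refine le_trans (Nat.pow_le_pow_left ?_ _) hMq
      have : Lc * M ≤ L * M := Nat.mul_le_mul_right _ (by omega)
      omega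
    obtain ⟨C, hC1, hC2⟩ := hcode x x M q hM1 hMq'
    refine ⟨C, hC1, ?_⟩
    have hMr : (1 : ℝ) ≤ M := by exact_mod_cast hM1
    have hM0 : (0 : ℝ) < M := by linarith
    set m : ℝ := Real.log M with hm
    have hm0 : 0 ≤ m := Real.log_nonneg hMr
    have hcard : 0 < C.card := by
      by_contra h
      have h0 : C.card = 0 := by omega
      rw [h0, Nat.mul_zero] at hC2
      have : 0 < M ^ ((s + 1) * x * x) := Nat.pow_pos hM1
      omega
    have hcard' : (0 : ℝ) < C.card := by exact_mod_cast hcard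
    rw [← Real.exp_log hcard']
    apply Real.exp_le_exp.mpr
    -- upper bound of log M
    have hmT : (T : ℝ) * m ≤ g ^ 3 := by
      have h1 : ((M ^ T : ℕ) : ℝ) ≤ (q : ℝ) := by
        have : M ^ T ≤ (2 * (L * M) + 1) ^ T := by
          apply Nat.pow_le_pow_left
          have : 1 * M ≤ L * M := Nat.mul_le_mul_right _ (by omega)
          omega
        exact_mod_cast this.trans hMq
      have h2 := Real.log_le_log (by positivity) h1
      push_cast at h2
      rw [Real.log_pow, ← hm, ← hlam, ← hg3] at h2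
      exact h2
    have hmg : m ≤ g := by
      have h1 : g ^ 2 ≤ T := by
        rw [hTr]
        have h0 : 0 ≤ (x : ℝ) * D := mul_nonneg hx0.le hD0
        have h2 : g * g ≤ (x : ℝ) * x := mul_le_mul hxg hxg hg_nn hx0.le
        have e : (x : ℝ) * (x + D) = x * x + x * D := by ring
        rw [e, sq]
        linarith
      have h2 : g ^ 2 * m ≤ g ^ 2 * g := by
        calc g ^ 2 * m ≤ T * m := mul_le_mul_of_nonneg_right h1 hm0
          _ ≤ g ^ 3 := hmT
          _ = g ^ 2 * g := by ring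
      exact le_of_mul_le_mul_left h2 (by positivity)
    -- lower bound of log M
    have hlow : g ^ 3 ≤ T * (a + m) := by
      have h1 : (q : ℝ) ≤ (((4 * L + 1) * M : ℕ) : ℝ) ^ T := by exact_mod_cast hqM
      have h2 := Real.log_le_log (by linarith) h1
      rw [Real.log_pow] at h2
      push_cast at h2
      rw [Real.log_mul (by positivity) (by positivity), ← ha, ← hm, ← hlam, ← hg3] at h2
      exact h2
    -- the code
    have hlog : r * (x * x) * m
        ≤ 2 * x * Real.log (2 * (x * x * M * M) + 1) + Real.log C.card := by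
      have h1 : ((M ^ ((s + 1) * x * x) : ℕ) : ℝ)
          ≤ (((2 * (x * x * M * M) + 1) ^ (2 * x) * C.card : ℕ) : ℝ) := by exact_mod_cast hC2
      have h2 := Real.log_le_log (by positivity) h1
      push_cast at h2
      rw [Real.log_mul (by positivity) (by positivity), Real.log_pow, Real.log_pow, ← hm] at h2
      have e : (((s + 1) * x * x : ℕ) : ℝ) = r * (x * x) := by rw [hr]; push_cast; ring
      rw [e] at h2
      push_cast at h2
      exact h2
    have hrest := aux_rest g x m _ hg1.le hx0 hx2 hm0 hmg (aux_log x M hx1' hMr)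
    have hmain := aux_main g D x r a m hg1.le hD0 hx0 hxg hx2 hr1 ha0 (by rw [← hTr]; exact hlow)
    have hg2nn : 0 ≤ r * g0 * g ^ 2 := by positivity
    have e1 : r * lam = r * g ^ 3 := by rw [hg3]
    have e2 : (r * g0 + K1) * g ^ 2
        = r * g0 * g ^ 2 + (r * D * g ^ 2 + 4 * r * a * g ^ 2 + 32 * g ^ 2) := by
      rw [hK1]; ring
    rw [e1, e2]
    linarith

end Pool.Agent.IPP
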